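import Mathlib

set_option autoImplicit false
open Filter Topology Set

namespace Pool.Agent.Helper155.NME

theorem almost_antitone (s : ℕ → ℝ) (B : ℝ) (hB : ∀ k, B ≤ s k)
    (h : ∀ ε > (0 : ℝ), ∃ K : ℕ, ∀ k ≥ K, ∀ m : ℕ, s (k + m) ≤ s k + ε)
    (ε : ℝ) (hε : 0 < ε) :
    ∃ K : ℕ, ∀ k ≥ K, ∀ m : ℕ, s k - s (k + m) ≤ ε := by
  obtain ⟨K0, hK0⟩ := h (ε/2) (half_pos hε)
  set A : Set ℝ := s '' (Set.Ici K0) with hA
  have hbdd : BddBelow A := ⟨B, by rintro _ ⟨k, -, rfl⟩; exact hB k⟩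
  have hne : A.Nonempty := ⟨s K0, K0, Set.mem_Ici.2 le_rfl, rfl⟩
  obtain ⟨_, ⟨k1, hk1, rfl⟩, hlt⟩ := exists_lt_of_csInf_lt hne (show sInf A < sInf A + ε/2 by linarith)
  have hk1' : K0 ≤ k1 := hk1
  refine ⟨k1, fun k hk m => ?_⟩
  have h1 := hK0 k1 hk1' (k - k1)
  rw [Nat.add_sub_cancel' hk] at h1
  have h2 : sInf A ≤ s (k + m) := csInf_le hbdd ⟨k + m, Set.mem_Ici.2 (by omega), rfl⟩
  linarith

end Pool.Agent.Helper155.NME
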