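import Mathlib

set_option autoImplicit false

open Filter Topology Set

namespace Pool.Agent.Helper155.NME

/-- Iterated filter on lists: `∀ᶠ l in FL P n, p l` means
`∀ᶠ g₁ in P, ∀ᶠ g₂ in P, …, ∀ᶠ gₙ in P, p [g₁, …, gₙ]`. -/
def FL {G : Type*} (P : Filter G) : ℕ → Filter (List G)
  | 0 => pure []
  | n + 1 => P.bind (fun g => (FL P n).map (fun l => g :: l))

/-- Window averages of a sequence. -/
noncomputable def win {X : Type*} [NormedAddCommGroup X] [NormedSpace ℝ X]
    (x : ℕ → X) (L k : ℕ) : X :=
  (L : ℝ)⁻¹ • ∑ i ∈ Finset.range L, x (k + i)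

section FLlemmas

variable {G : Type*} {P : Filter G}

theorem eventually_FL_zero {p : List G → Prop} : (∀ᶠ l in FL P 0, p l) ↔ p [] := by
  simp [FL]

theorem eventually_FL_succ {n : ℕ} {p : List G → Prop} :
    (∀ᶠ l in FL P (n + 1), p l) ↔ ∀ᶠ g in P, ∀ᶠ l in FL P n, p (g :: l) := by
  rw [FL, Filter.eventually_bind]
  rfl

theorem FL_neBot [P.NeBot] (n : ℕ) : (FL P n).NeBot := by
  induction n with
  | zero => rw [FL]; infer_instance
  | succ n ih =>
    constructor
    intro h
    have h1 : ∀ᶠ l in FL P (n + 1), False := by rw [h]; exact Filter.eventually_bot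
    rw [eventually_FL_succ] at h1
    obtain ⟨g, hg⟩ := h1.exists
    exact (hg.exists).elim (fun _ h => h)

theorem FL_length (n : ℕ) : ∀ᶠ l in FL P n, l.length = n := by
  induction n with
  | zero => rw [eventually_FL_zero]; rfl
  | succ n ih =>
    rw [eventually_FL_succ]
    refine Filter.Eventually.of_forall fun g => ?_
    filter_upwards [ih] with l hl
    simp [hl]

theorem FL_all {A : G → Prop} (hA : ∀ᶠ g in P, A g) (n : ℕ) :
    ∀ᶠ l in FL P n, ∀ g ∈ l, A g := by
  induction n with
  | zero => rw [eventually_FL_zero]; simp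
  | succ n ih =>
    rw [eventually_FL_succ]
    filter_upwards [hA] with g hg
    filter_upwards [ih] with l hl
    intro g' hg'
    rcases List.mem_cons.1 hg' with h | h
    · rw [h]; exact hg
    · exact hl g' h

theorem eventually_FL_add {m n : ℕ} {p : List G → Prop} :
    (∀ᶠ l in FL P (m + n), p l) ↔ ∀ᶠ l₁ in FL P m, ∀ᶠ l₂ in FL P n, p (l₁ ++ l₂) := by
  induction m generalizing p with
  | zero => rw [eventually_FL_zero]; simp
  | succ m ih =>
    rw [show m + 1 + n = (m + n) + 1 from by ring, eventually_FL_succ, eventually_FL_succ]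
    refine Filter.eventually_congr (Filter.Eventually.of_forall fun g => ?_)
    rw [ih]
    rfl

end FLlemmas

end Pool.Agent.Helper155.NME
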