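import Mathlib
import Pool.Agent.Helper155.NME.Basic
set_option autoImplicit false
open Filter Topology Set

namespace Pool.Agent.Helper155.NME

theorem sum_map_sub' {X : Type*} [NormedAddCommGroup X] [NormedSpace ℝ X] {G : Type*}
    (Y : G → X) (p : X) (l : List G) :
    (l.map (fun g => Y g - p)).sum = (l.map Y).sum - (l.length : ℝ) • p := by
  induction l with
  | nil => simp
  | cons a l ih =>
    rw [List.map_cons, List.sum_cons, ih, List.map_cons, List.sum_cons, List.length_cons]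
    push_cast
    module

theorem abs_sum_le' {X : Type*} [NormedAddCommGroup X] [NormedSpace ℝ X] {G : Type*}
    (Z : G → X) (φ : X →L[ℝ] ℝ) (c : ℝ) (l : List G) (h : ∀ g ∈ l, |φ (Z g)| ≤ c) :
    |φ ((l.map Z).sum)| ≤ (l.length : ℝ) * c := by
  induction l with
  | nil => simp
  | cons a l ih =>
    have h1 := ih (fun g hg => h g (List.mem_cons_of_mem _ hg))
    have h2 := h a (List.mem_cons_self)
    rw [List.map_cons, List.sum_cons, map_add, List.length_cons]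
    push_cast
    have h3 := abs_add_le (φ (Z a)) (φ ((l.map Z).sum))
    linarith

theorem kak_step (X : Type*) [NormedAddCommGroup X] [NormedSpace ℝ X]
    {G : Type*} (P : Filter G) (Z : G → X) (δ : ℝ)
    (hδ : ∀ ⦃x : X⦄, ‖x‖ ≤ 1 → ∀ ⦃y⦄, ‖y‖ ≤ 1 → (1 / 4 : ℝ) ≤ ‖x - y‖ → ‖x + y‖ ≤ 2 - δ)
    (θ : ℝ) (h1 : 3 / 4 ≤ θ) (h2 : 1 - δ / 2 ≤ θ)
    (hw : ∀ φ : X →L[ℝ] ℝ, Tendsto (fun g => φ (Z g)) P (𝓝 0))
    (n : ℕ) (hn : 0 < n) (s : ℝ) (hs : 0 < s)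
    (hQ : ∀ᶠ l in FL P n, ‖(n : ℝ)⁻¹ • (l.map Z).sum‖ ≤ s) :
    ∀ᶠ l in FL P (n + n), ‖((n + n : ℕ) : ℝ)⁻¹ • (l.map Z).sum‖ ≤ θ * s := by
  rw [eventually_FL_add]
  filter_upwards [hQ] with l1 hl1
  have hn' : (0 : ℝ) < n := by exact_mod_cast hn
  obtain ⟨φ, hφ1, hφ2⟩ := exists_dual_vector'' ℝ ((n : ℝ)⁻¹ • (l1.map Z).sum)
  have h3 : ∀ᶠ g in P, |φ (Z g)| ≤ s / 4 := by
    have h4 := (hw φ).abs
    rw [abs_zero] at h4
    exact (h4.eventually (gt_mem_nhds (by positivity : (0 : ℝ) < s / 4))).mono fun g hg => le_of_lt hg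
  filter_upwards [hQ, FL_all h3 n, FL_length n] with l2 hl2 hl3 hl4
  obtain ⟨v1, hv1⟩ : ∃ v1 : X, v1 = (n : ℝ)⁻¹ • (l1.map Z).sum := ⟨_, rfl⟩
  obtain ⟨v2, hv2⟩ : ∃ v2 : X, v2 = (n : ℝ)⁻¹ • (l2.map Z).sum := ⟨_, rfl⟩
  have hφv2 : |φ v2| ≤ s / 4 := by
    rw [hv2, map_smul, smul_eq_mul, abs_mul, abs_of_pos (by positivity : (0 : ℝ) < (n : ℝ)⁻¹)]
    have h5 := abs_sum_le' Z φ (s / 4) l2 hl3
    rw [hl4] at h5
    calc (n : ℝ)⁻¹ * |φ ((l2.map Z).sum)| ≤ (n : ℝ)⁻¹ * ((n : ℝ) * (s / 4)) :=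
          mul_le_mul_of_nonneg_left h5 (by positivity)
      _ = s / 4 := by field_simp
  have hsum : ((n + n : ℕ) : ℝ)⁻¹ • ((l1 ++ l2).map Z).sum = (1 / 2 : ℝ) • (v1 + v2) := by
    rw [List.map_append, List.sum_append, hv1, hv2, ← smul_add, smul_smul]
    congr 1
    push_cast
    field_simp
    norm_num
  rw [hsum, norm_smul, Real.norm_of_nonneg (by norm_num)]
  rw [← hv1] at hl1 hφ2
  rw [← hv2] at hl2
  have hφ2' : φ v1 = ‖v1‖ := by simpa using hφ2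
  rcases lt_or_ge ‖v1‖ (s / 2) with h6 | h6
  · have h7 := norm_add_le v1 v2
    nlinarith
  · have h7 : s / 4 ≤ ‖v1 - v2‖ := by
      have h8 : φ (v1 - v2) ≤ ‖v1 - v2‖ := by
        have h9 := φ.le_opNorm (v1 - v2)
        have h10 : ‖φ‖ * ‖v1 - v2‖ ≤ 1 * ‖v1 - v2‖ :=
          mul_le_mul_of_nonneg_right hφ1 (norm_nonneg _)
        have h11 : φ (v1 - v2) ≤ ‖φ (v1 - v2)‖ := Real.le_norm_self _
        linarith
      rw [map_sub, hφ2'] at h8
      have h12 := (abs_le.1 hφv2).2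
      linarith
    have e1 : ∀ v : X, ‖v‖ ≤ s → ‖s⁻¹ • v‖ ≤ 1 := by
      intro v hv
      rw [norm_smul, Real.norm_of_nonneg (by positivity), inv_mul_le_iff₀ hs, mul_one]
      exact hv
    have e2 := hδ (e1 v1 hl1) (e1 v2 hl2) (by
      rw [← smul_sub, norm_smul, Real.norm_of_nonneg (by positivity), le_inv_mul_iff₀ hs]
      linarith)
    rw [← smul_add, norm_smul, Real.norm_of_nonneg (by positivity), inv_mul_le_iff₀ hs] at e2
    nlinarith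

theorem kakutani (X : Type*) [NormedAddCommGroup X] [NormedSpace ℝ X] [UniformConvexSpace X]
    {G : Type*} (P : Filter G) (Y : G → X) (p : X) (M : ℝ)
    (hM : ∀ g, ‖Y g - p‖ ≤ M)
    (hw : ∀ φ : X →L[ℝ] ℝ, Tendsto (fun g => φ (Y g)) P (𝓝 (φ p)))
    (ε : ℝ) (hε : 0 < ε) :
    ∃ n : ℕ, 0 < n ∧ ∀ᶠ l in FL P n, ‖(n : ℝ)⁻¹ • (l.map Y).sum - p‖ ≤ ε := by
  obtain ⟨δ, hδ0, hδ⟩ := exists_forall_closed_ball_dist_add_le_two_sub X
    (by norm_num : (0 : ℝ) < 1 / 4)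
  obtain ⟨θ, hθ⟩ : ∃ θ : ℝ, θ = max (3 / 4) (1 - δ / 2) := ⟨_, rfl⟩
  have hθ1 : 3 / 4 ≤ θ := by rw [hθ]; exact le_max_left _ _
  have hθ2 : 1 - δ / 2 ≤ θ := by rw [hθ]; exact le_max_right _ _
  have hθ3 : θ < 1 := by rw [hθ]; exact max_lt (by norm_num) (by linarith)
  obtain ⟨M', hM'⟩ : ∃ M' : ℝ, M' = max M 1 := ⟨_, rfl⟩
  have hM'0 : 0 < M' := by rw [hM']; exact lt_of_lt_of_le one_pos (le_max_right _ _)
  have hwZ : ∀ φ : X →L[ℝ] ℝ, Tendsto (fun g => φ (Y g - p)) P (𝓝 0) := by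
    intro φ
    have h1 := (hw φ).sub_const (φ p)
    rw [sub_self] at h1
    simpa only [map_sub] using h1
  have key : ∀ m : ℕ, ∃ n : ℕ, 0 < n ∧
      ∀ᶠ l in FL P n, ‖(n : ℝ)⁻¹ • (l.map (fun g => Y g - p)).sum‖ ≤ θ ^ m * M' := by
    intro m
    induction m with
    | zero =>
      refine ⟨1, one_pos, ?_⟩
      rw [show (1 : ℕ) = 0 + 1 from rfl, eventually_FL_succ]
      refine Filter.Eventually.of_forall fun g => ?_
      rw [eventually_FL_zero]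
      simp only [List.map_cons, List.map_nil, List.sum_cons, List.sum_nil, add_zero]
      norm_num
      rw [hM']
      exact (hM g).trans (le_max_left _ _)
    | succ m ih =>
      obtain ⟨n, hn, hQ⟩ := ih
      refine ⟨n + n, by omega, ?_⟩
      have h1 := kak_step X P (fun g => Y g - p) δ hδ θ hθ1 hθ2 hwZ n hn (θ ^ m * M')
        (by positivity) hQ
      rw [pow_succ']
      rw [mul_assoc]
      exact h1
  obtain ⟨m, hm⟩ := exists_pow_lt_of_lt_one (div_pos hε hM'0) hθ3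
  obtain ⟨n, hn, hQ⟩ := key m
  refine ⟨n, hn, ?_⟩
  have hn' : (0 : ℝ) < n := by exact_mod_cast hn
  filter_upwards [hQ, FL_length n] with l hl hlen
  rw [sum_map_sub', hlen, smul_sub, smul_smul, inv_mul_cancel₀ hn'.ne', one_smul] at hl
  refine hl.trans ?_
  rw [lt_div_iff₀ hM'0] at hm
  exact hm.le

end Pool.Agent.Helper155.NME
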