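import Mathlib
import Pool.Agent.Helper155.NME.Basic

set_option autoImplicit false

open Filter Topology Set

namespace Pool.Agent.Helper155.NME

variable {X : Type*} [NormedAddCommGroup X] [NormedSpace ℝ X]

/-- `T` maps `C` to itself and is nonexpansive on `C`. -/
structure NE (C : Set X) (T : X → X) : Prop where
  maps : ∀ x ∈ C, T x ∈ C
  le : ∀ x ∈ C, ∀ y ∈ C, ‖T x - T y‖ ≤ ‖x - y‖

omit [NormedSpace ℝ X] in
theorem NE.iterate {C : Set X} {U : X → X} (h : NE C U) (m : ℕ) : NE C (U^[m]) := by
  induction m with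
  | zero => exact ⟨fun x hx => hx, fun x _ y _ => le_rfl⟩
  | succ m ih =>
    refine ⟨fun x hx => ?_, fun x hx y hy => ?_⟩
    · rw [Function.iterate_succ_apply']; exact h.maps _ (ih.maps x hx)
    · rw [Function.iterate_succ_apply', Function.iterate_succ_apply']
      exact (h.le _ (ih.maps x hx) _ (ih.maps y hy)).trans (ih.le x hx y hy)

/-- The list form of the `n`-point property. -/
def NPL (C : Set X) : Prop :=
  ∀ N : ℕ, ∀ ε > (0 : ℝ), ∃ η > (0 : ℝ), ∀ T : X → X, NE C T →
    ∀ (q : X) (zs : List X) (b a : ℝ), zs.length = N → q ∈ C → (∀ z ∈ zs, z ∈ C) →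
      0 ≤ a → 0 ≤ b → b + a * N = 1 →
      (∀ z ∈ q :: zs, ∀ z' ∈ q :: zs, ‖z - z'‖ - ‖T z - T z'‖ ≤ η) →
      ‖T (b • q + a • zs.sum) - (b • T q + a • (zs.map T).sum)‖ ≤ ε

/-- The `Fin` form of the `n`-point property. -/
def NPF (C : Set X) : Prop :=
  ∀ n : ℕ, ∀ ε > (0 : ℝ), ∃ η > (0 : ℝ), ∀ T : X → X, NE C T →
      ∀ (z : Fin (n + 1) → X) (w : Fin (n + 1) → ℝ), (∀ i, z i ∈ C) → (∀ i, 0 ≤ w i) →
        ∑ i, w i = 1 → (∀ i j, ‖z i - z j‖ - ‖T (z i) - T (z j)‖ ≤ η) →
        ‖T (∑ i, w i • z i) - ∑ i, w i • T (z i)‖ ≤ ε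

theorem NPL_of_NPF {C : Set X} (h : NPF C) : NPL C := by
  intro N ε hε
  obtain ⟨η, hη, H⟩ := h N ε hε
  refine ⟨η, hη, ?_⟩
  intro T hT q zs b a hN hq hzs ha hb hab hdef
  subst hN
  have := H T hT (Fin.cons q (fun i => zs.get i)) (Fin.cons b (fun _ => a)) ?_ ?_ ?_ ?_
  · rw [Fin.sum_univ_succ, Fin.sum_univ_succ] at this
    simp only [Fin.cons_zero, Fin.cons_succ] at this
    rw [← Finset.smul_sum, ← Finset.smul_sum] at this
    have e1 : ∑ i : Fin zs.length, zs.get i = zs.sum := by
      simp
    have e2 : ∑ i : Fin zs.length, T (zs.get i) = (zs.map T).sum := by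
      simp
    rw [e1, e2] at this
    exact this
  · intro i
    refine Fin.cases ?_ (fun j => ?_) i
    · simpa using hq
    · simpa using hzs _ (List.get_mem zs j)
  · intro i
    refine Fin.cases ?_ (fun j => ?_) i
    · simpa using hb
    · simpa using ha
  · rw [Fin.sum_univ_succ]
    simp only [Fin.cons_zero, Fin.cons_succ, Finset.sum_const, Finset.card_univ, Fintype.card_fin,
      nsmul_eq_mul]
    linarith
  · intro i j
    have key : ∀ i : Fin (zs.length + 1), (Fin.cons q (fun i => zs.get i) : Fin (zs.length + 1) → X) i ∈ q :: zs := by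
      intro i
      refine Fin.cases ?_ (fun j => ?_) i
      · simp
      · simp
    exact hdef _ (key i) _ (key j)

/-- The crucial step: replace the leading window by `q`. -/
theorem main_step {C : Set X} (hC : Convex ℝ C) {U : X → X} (hU : NE C U) (hNP : NPL C)
    {G : Type*} (P : Filter G) [P.NeBot] (Y : G → X) (hY : ∀ g, Y g ∈ C)
    (p q : X) (hp : p ∈ C) (hq : q ∈ C) (hUp : U p = p)
    (hUq : U q = q)
    (H : ∀ ε > (0 : ℝ), ∀ᶠ g in P, q ∈ closure (convexHull ℝ {z : X | ∃ m : ℕ,
        ‖U^[m] (Y g) - z‖ ≤ ε ∧ ‖Y g - q‖ - ‖U^[m] (Y g) - q‖ ≤ ε ∧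
        ∀ᶠ g' in P, ‖U^[m] (Y g') - Y g'‖ ≤ ε ∧ ‖Y g - Y g'‖ - ‖U^[m] (Y g) - Y g'‖ ≤ ε}))
    (n : ℕ) (hn : 0 < n) :
    ∀ j : ℕ, j ≤ n → ∀ c : ℝ,
      (∀ᶠ l in FL P j, ‖(1 - (n : ℝ)⁻¹ * j) • q + (n : ℝ)⁻¹ • (l.map Y).sum - p‖ ≤ c) →
      ∀ ε > (0 : ℝ), ‖q - p‖ ≤ c + ε := by
  intro j
  induction j with
  | zero =>
    intro _ c hc ε hε
    rw [eventually_FL_zero] at hc
    simp at hc
    linarith
  | succ j ih =>
    intro hj c hc ε hε
    have hn' : (0 : ℝ) < n := by exact_mod_cast hn
    set a : ℝ := (n : ℝ)⁻¹ with ha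
    have ha0 : 0 < a := inv_pos.2 hn'
    have ha1 : a ≤ 1 := by
      rw [ha]; exact inv_le_one_of_one_le₀ (by exact_mod_cast hn)
    have haj : a * ((j : ℝ) + 1) ≤ 1 := by
      rw [ha, inv_mul_le_iff₀ hn', mul_one]
      exact_mod_cast hj
    obtain ⟨η, hη, hN⟩ := hNP (j + 1) (ε / 8) (by linarith)
    set ε2 : ℝ := min (η / 2) (ε / 8) with hε2
    have hε2pos : 0 < ε2 := lt_min (by linarith) (by linarith)
    have hε2a : ε2 ≤ η / 2 := min_le_left _ _
    have hε2b : ε2 ≤ ε / 8 := min_le_right _ _
    rw [eventually_FL_succ] at hc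
    obtain ⟨g, hg1, hg2⟩ := (hc.and (H ε2 hε2pos)).exists
    set b : ℝ := 1 - a * ((j : ℝ) + 1) with hb
    have hb0 : 0 ≤ b := by rw [hb]; linarith
    -- the convex set of admissible replacements
    set Z : Set X := {z : X | ∀ᶠ l in FL P j, ‖b • q + a • (z + (l.map Y).sum) - p‖ ≤ c + 3 * ε / 8}
      with hZ
    have hZconv : Convex ℝ Z := by
      intro z1 hz1 z2 hz2 s t hs ht hst
      simp only [hZ, mem_ofPred_eq] at hz1 hz2 ⊢
      filter_upwards [hz1, hz2] with l h1 h2
      have e : b • q + a • ((s • z1 + t • z2) + (l.map Y).sum) - p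
          = s • (b • q + a • (z1 + (l.map Y).sum) - p) + t • (b • q + a • (z2 + (l.map Y).sum) - p) := by
        have ht' : t = 1 - s := by linarith
        subst ht'
        module
      rw [e]
      calc ‖s • (b • q + a • (z1 + (l.map Y).sum) - p) + t • (b • q + a • (z2 + (l.map Y).sum) - p)‖
          ≤ ‖s • (b • q + a • (z1 + (l.map Y).sum) - p)‖
            + ‖t • (b • q + a • (z2 + (l.map Y).sum) - p)‖ := norm_add_le _ _
        _ = s * ‖(b • q + a • (z1 + (l.map Y).sum) - p)‖
            + t * ‖(b • q + a • (z2 + (l.map Y).sum) - p)‖ := by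
            rw [norm_smul_of_nonneg hs, norm_smul_of_nonneg ht]
        _ ≤ s * (c + 3 * ε / 8) + t * (c + 3 * ε / 8) := by gcongr
        _ = c + 3 * ε / 8 := by rw [← add_mul, hst, one_mul]
    have hEZ : {z : X | ∃ m : ℕ,
        ‖U^[m] (Y g) - z‖ ≤ ε2 ∧ ‖Y g - q‖ - ‖U^[m] (Y g) - q‖ ≤ ε2 ∧
        ∀ᶠ g' in P, ‖U^[m] (Y g') - Y g'‖ ≤ ε2 ∧
          ‖Y g - Y g'‖ - ‖U^[m] (Y g) - Y g'‖ ≤ ε2} ⊆ Z := by
      rintro z ⟨m, hm1, hm2, hm3⟩
      simp only [hZ, mem_ofPred_eq]
      have hT := hU.iterate m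
      have hTq : U^[m] q = q := Function.iterate_fixed hUq m
      have hTp : U^[m] p = p := Function.iterate_fixed hUp m
      filter_upwards [hg1, FL_length (P := P) j, FL_all hm3 j] with l hl1 hl2 hl3
      set T := U^[m] with hTdef
      have hzC : ∀ z ∈ (Y g :: l.map Y), z ∈ C := by
        intro z hz
        rcases List.mem_cons.1 hz with h | h
        · rw [h]; exact hY g
        · obtain ⟨g', _, rfl⟩ := List.mem_map.1 h
          exact hY g'
      -- defects
      have hdef : ∀ z ∈ q :: (Y g :: l.map Y), ∀ z' ∈ q :: (Y g :: l.map Y),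
          ‖z - z'‖ - ‖T z - T z'‖ ≤ η := by
        have d1 : ∀ g' ∈ l, ‖Y g' - q‖ - ‖T (Y g') - T q‖ ≤ η := by
          intro g' hg'
          have h1 := (hl3 g' hg').1
          rw [hTq]
          have : ‖Y g' - q‖ ≤ ‖T (Y g') - q‖ + ‖T (Y g') - Y g'‖ := by
            have e : Y g' - q = (T (Y g') - q) - (T (Y g') - Y g') := by abel
            rw [e]; exact norm_sub_le _ _
          linarith
        have d2 : ‖Y g - q‖ - ‖T (Y g) - T q‖ ≤ η := by rw [hTq]; linarith
        have d3 : ∀ g' ∈ l, ‖Y g - Y g'‖ - ‖T (Y g) - T (Y g')‖ ≤ η := by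
          intro g' hg'
          obtain ⟨h1, h2⟩ := hl3 g' hg'
          have : ‖T (Y g) - Y g'‖ ≤ ‖T (Y g) - T (Y g')‖ + ‖T (Y g') - Y g'‖ := by
            have e : T (Y g) - Y g' = (T (Y g) - T (Y g')) + (T (Y g') - Y g') := by abel
            rw [e]; exact norm_add_le _ _
          linarith
        have d4 : ∀ g' ∈ l, ∀ g'' ∈ l, ‖Y g' - Y g''‖ - ‖T (Y g') - T (Y g'')‖ ≤ η := by
          intro g' hg' g'' hg''
          have h1 := (hl3 g' hg').1
          have h2 := (hl3 g'' hg'').1
          have : ‖Y g' - Y g''‖ ≤ ‖T (Y g') - T (Y g'')‖ + ‖T (Y g') - Y g'‖ + ‖T (Y g'') - Y g''‖ := by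
            have e : Y g' - Y g'' = (T (Y g') - T (Y g'')) - (T (Y g') - Y g') + (T (Y g'') - Y g'') := by
              abel
            rw [e]
            exact (norm_add_le _ _).trans (by gcongr; exact norm_sub_le _ _)
          linarith
        have d0 : ∀ z : X, ‖z - z‖ - ‖T z - T z‖ ≤ η := by intro z; simp; linarith
        intro z hz z' hz'
        simp only [List.mem_cons, List.mem_map] at hz hz'
        rcases hz with rfl | rfl | ⟨g', hg', rfl⟩ <;> rcases hz' with rfl | rfl | ⟨g'', hg'', rfl⟩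
        · exact d0 _
        · rw [norm_sub_rev, norm_sub_rev (T _)]; exact d2
        · rw [norm_sub_rev, norm_sub_rev (T _)]; exact d1 _ hg''
        · exact d2
        · exact d0 _
        · exact d3 _ hg''
        · exact d1 _ hg'
        · rw [norm_sub_rev, norm_sub_rev (T _)]; exact d3 _ hg'
        · exact d4 _ hg' _ hg''
      have hmain := hN T hT q (Y g :: l.map Y) b a (by simp [hl2]) hq hzC ha0.le hb0
        (by rw [hb]; push_cast; ring) hdef
      have hlen : ((l.map Y).length : ℝ) = j := by simp [hl2]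
      simp only [List.sum_cons, List.map_cons, List.map_map] at hmain hl1
      rw [hTq] at hmain
      have hsumclose : ∀ l' : List G, (∀ g' ∈ l', ‖T (Y g') - Y g'‖ ≤ ε2) →
          ‖(l'.map (T ∘ Y)).sum - (l'.map Y).sum‖ ≤ l'.length * ε2 := by
        intro l'
        induction l' with
        | nil => intro _; simp
        | cons g' l' ih' =>
          intro h
          simp only [List.map_cons, List.sum_cons, Function.comp_apply, List.length_cons]
          have h1 := h g' (by simp)
          have h2 := ih' (fun g'' hg'' => h g'' (by simp [hg'']))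
          have e : T (Y g') + (l'.map (T ∘ Y)).sum - (Y g' + (l'.map Y).sum)
              = (T (Y g') - Y g') + ((l'.map (T ∘ Y)).sum - (l'.map Y).sum) := by abel
          rw [e]
          refine (norm_add_le _ _).trans ?_
          push_cast
          linarith
      have hs := hsumclose l (fun g' hg' => (hl3 g' hg').1)
      rw [hl2] at hs
      have hpt : ‖T (b • q + a • (Y g + (l.map Y).sum)) - p‖ ≤ c := by
        have hmem : b • q + a • (Y g + (l.map Y).sum) ∈ C := by
          have hw : b • q + a • (Y g + (l.map Y).sum) =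
              ∑ i : Fin (j + 2), (Fin.cons b (fun _ => a) : Fin (j + 2) → ℝ) i •
                (Fin.cons q (fun i : Fin (j + 1) => (Y g :: l.map Y).getD i 0) : Fin (j + 2) → X) i := by
            rw [Fin.sum_univ_succ]
            simp only [Fin.cons_zero, Fin.cons_succ]
            rw [← Finset.smul_sum]
            congr 2
            have : (Y g + (l.map Y).sum) = (Y g :: l.map Y).sum := by simp
            rw [this]
            have hlen2 : (Y g :: l.map Y).length = j + 1 := by simp [hl2]
            rw [← Fin.sum_univ_getElem, ← hlen2]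
            refine Finset.sum_congr rfl fun i _ => ?_
            rw [List.getD_eq_getElem?_getD, List.getElem?_eq_getElem i.2]
            rfl
          rw [hw]
          apply hC.sum_mem
          · intro i _
            refine Fin.cases ?_ (fun i => ?_) i
            · simpa using hb0
            · simpa using ha0.le
          · rw [Fin.sum_univ_succ]
            simp only [Fin.cons_zero, Fin.cons_succ, Finset.sum_const, Finset.card_univ,
              Fintype.card_fin, nsmul_eq_mul]
            rw [hb]; push_cast; ring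
          · intro i _
            refine Fin.cases ?_ (fun i => ?_) i
            · simpa using hq
            · simp only [Fin.cons_succ]
              have hlen2 : (Y g :: l.map Y).length = j + 1 := by simp [hl2]
              have hi : (i : ℕ) < (Y g :: l.map Y).length := by rw [hlen2]; exact i.2
              rw [List.getD_eq_getElem _ _ hi]
              exact hzC _ (List.getElem_mem hi)
        have h1 := hT.le _ hmem p hp
        rw [hTp] at h1
        refine h1.trans ?_
        have hl1' := hl1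
        push_cast at hl1'
        exact hl1'
      have e : b • q + a • (z + (l.map Y).sum) - p
          = (T (b • q + a • (Y g + (l.map Y).sum)) - p)
            - (T (b • q + a • (Y g + (l.map Y).sum)) - (b • q + a • (T (Y g) + (l.map (T ∘ Y)).sum)))
            - a • (T (Y g) - z) - a • ((l.map (T ∘ Y)).sum - (l.map Y).sum) := by
        module
      rw [e]
      have haj' : a * ((j : ℝ) * ε2) ≤ ε2 := by
        have : a * (j : ℝ) ≤ 1 := by nlinarith
        nlinarith
      calc _ ≤ ‖T (b • q + a • (Y g + (l.map Y).sum)) - p‖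
            + ‖T (b • q + a • (Y g + (l.map Y).sum)) - (b • q + a • (T (Y g) + (l.map (T ∘ Y)).sum))‖
            + ‖a • (T (Y g) - z)‖ + ‖a • ((l.map (T ∘ Y)).sum - (l.map Y).sum)‖ := by
              refine (norm_sub_le _ _).trans ?_
              gcongr
              refine (norm_sub_le _ _).trans ?_
              gcongr
              exact norm_sub_le _ _
        _ ≤ c + ε / 8 + ε2 + ε2 := by
              rw [norm_smul_of_nonneg ha0.le, norm_smul_of_nonneg ha0.le]
              have h3 : a * ‖T (Y g) - z‖ ≤ ε2 := by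
                calc a * ‖T (Y g) - z‖ ≤ 1 * ε2 := by gcongr
                  _ = ε2 := one_mul _
              have h4 : a * ‖(l.map (T ∘ Y)).sum - (l.map Y).sum‖ ≤ ε2 :=
                (mul_le_mul_of_nonneg_left hs ha0.le).trans haj'
              linarith
        _ ≤ c + 3 * ε / 8 := by linarith
    have hqZ : q ∈ closure Z := closure_mono (convexHull_min hEZ hZconv) hg2
    obtain ⟨z, hz, hzq⟩ := Metric.mem_closure_iff.1 hqZ (ε / 8) (by linarith)
    refine le_trans (ih (by omega) (c + ε / 2) ?_ (ε / 2) (by linarith)) (by linarith)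
    simp only [hZ, mem_ofPred_eq] at hz
    filter_upwards [hz] with l hl
    have e : (1 - a * (j : ℝ)) • q + a • (l.map Y).sum - p
        = (b • q + a • (z + (l.map Y).sum) - p) + a • (q - z) := by
      rw [hb]; module
    rw [e]
    refine (norm_add_le _ _).trans ?_
    rw [norm_smul_of_nonneg ha0.le]
    rw [dist_eq_norm] at hzq
    have : a * ‖q - z‖ ≤ ε / 8 := by
      calc a * ‖q - z‖ ≤ 1 * (ε / 8) := by gcongr
        _ = ε / 8 := one_mul _
    linarith

end Pool.Agent.Helper155.NME
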