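import Mathlib
import Pool.Agent.Helper155.NME.Steps
set_option autoImplicit false
open Filter Topology Set

namespace Pool.Agent.Helper155.NME

variable {X : Type*} [NormedAddCommGroup X] [NormedSpace ℝ X]

theorem n_point_sum {n : ℕ} (w : Fin (n + 1 + 1) → ℝ) (t : ℝ) (ht : 0 < t) (htw : t = 1 - w 0)
    (hv : ∑ i : Fin (n + 1), w (Fin.succ i) / t = 1) (y : Fin (n + 1 + 1) → X) :
    ∑ i : Fin (n + 1), (w (Fin.succ i) / t) • (t • y (Fin.succ i) + (1 - t) • y 0) =
      ∑ i, w i • y i := by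
  rw [Fin.sum_univ_succ (f := fun i => w i • y i)]
  simp only [smul_add, Finset.sum_add_distrib]
  have h1 : ∑ i : Fin (n + 1), (w (Fin.succ i) / t) • (1 - t) • y 0 = w 0 • y 0 := by
    rw [← Finset.sum_smul, hv, one_smul, htw]
    congr 1
    ring
  rw [h1, add_comm]
  congr 1
  apply Finset.sum_congr rfl
  intro i _
  rw [smul_smul]
  congr 1
  field_simp

theorem n_point {C : Set X} (hC : Convex ℝ C)
    (h2 : ∀ ε > (0 : ℝ), ∃ η > (0 : ℝ), ∀ T : X → X, NE C T → ∀ u ∈ C, ∀ v ∈ C, ∀ t : ℝ,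
      0 ≤ t → t ≤ 1 → ‖u - v‖ - ‖T u - T v‖ ≤ η →
      ‖T (t • u + (1 - t) • v) - (t • T u + (1 - t) • T v)‖ ≤ ε) (n : ℕ) :
    ∀ ε > (0 : ℝ), ∃ η > (0 : ℝ), ∀ T : X → X, NE C T →
      ∀ (z : Fin (n + 1) → X) (w : Fin (n + 1) → ℝ), (∀ i, z i ∈ C) → (∀ i, 0 ≤ w i) →
        ∑ i, w i = 1 → (∀ i j, ‖z i - z j‖ - ‖T (z i) - T (z j)‖ ≤ η) →
        ‖T (∑ i, w i • z i) - ∑ i, w i • T (z i)‖ ≤ ε := by
  induction n with
  | zero =>
    intro ε hε
    refine ⟨1, one_pos, fun T hT z w hz hw hs _ => ?_⟩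
    have h1 : w 0 = 1 := by simpa using hs
    simp [h1]
    exact hε.le
  | succ n ih =>
    intro ε hε
    obtain ⟨η1, hη1, H1⟩ := ih (ε / 2) (by linarith)
    have hε' : 0 < min (ε / 2) (η1 / 4) := lt_min (by linarith) (by linarith)
    obtain ⟨η2, hη2, H2⟩ := h2 (min (ε / 2) (η1 / 4)) hε'
    refine ⟨min η2 (η1 / 4), lt_min hη2 (by linarith), fun T hT z w hz hw hs hzz => ?_⟩
    have hs' := hs
    rw [Fin.sum_univ_succ] at hs'
    have hw0 := hw 0
    have hsum0 : 0 ≤ ∑ i : Fin (n + 1), w (Fin.succ i) := Finset.sum_nonneg fun i _ => hw _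
    obtain ⟨t, htw⟩ : ∃ t : ℝ, t = 1 - w 0 := ⟨_, rfl⟩
    have hts : ∑ i : Fin (n + 1), w (Fin.succ i) = t := by linarith
    have ht0 : 0 ≤ t := by linarith
    have ht1 : t ≤ 1 := by linarith
    rcases ht0.eq_or_lt with ht | ht
    · -- t = 0
      have h3 : ∀ i : Fin (n + 1), w (Fin.succ i) = 0 := by
        have h4 : ∑ i : Fin (n + 1), w (Fin.succ i) = 0 := by rw [hts, ← ht]
        rw [Finset.sum_eq_zero_iff_of_nonneg (fun i _ => hw _)] at h4
        intro i
        exact h4 i (Finset.mem_univ i)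
      have h5 : w 0 = 1 := by linarith
      rw [Fin.sum_univ_succ (f := fun i => w i • z i),
        Fin.sum_univ_succ (f := fun i => w i • T (z i))]
      simp only [h3, h5, zero_smul, Finset.sum_const_zero, one_smul, add_zero, sub_self, norm_zero]
      exact hε.le
    · -- t > 0
      have hv : ∑ i : Fin (n + 1), w (Fin.succ i) / t = 1 := by
        rw [← Finset.sum_div, hts, div_self ht.ne']
      have hvn : ∀ i : Fin (n + 1), 0 ≤ w (Fin.succ i) / t := fun i => div_nonneg (hw _) ht0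
      have hu : ∀ i : Fin (n + 1), t • z (Fin.succ i) + (1 - t) • z 0 ∈ C := fun i =>
        hC (hz _) (hz _) ht0 (by linarith) (by ring)
      have hA : ∀ i : Fin (n + 1), ‖T (t • z (Fin.succ i) + (1 - t) • z 0) -
          (t • T (z (Fin.succ i)) + (1 - t) • T (z 0))‖ ≤ min (ε / 2) (η1 / 4) := fun i =>
        H2 T hT (z (Fin.succ i)) (hz _) (z 0) (hz _) t ht0 ht1
          ((hzz _ _).trans (min_le_left _ _))
      have hB : ∀ i j : Fin (n + 1), ‖(t • z (Fin.succ i) + (1 - t) • z 0) -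
          (t • z (Fin.succ j) + (1 - t) • z 0)‖ -
          ‖T (t • z (Fin.succ i) + (1 - t) • z 0) - T (t • z (Fin.succ j) + (1 - t) • z 0)‖
          ≤ η1 := by
        intro i j
        have e1 : (t • z (Fin.succ i) + (1 - t) • z 0) - (t • z (Fin.succ j) + (1 - t) • z 0) =
            t • (z (Fin.succ i) - z (Fin.succ j)) := by
          rw [smul_sub]; abel
        have e2 : (t • T (z (Fin.succ i)) + (1 - t) • T (z 0)) -
            (t • T (z (Fin.succ j)) + (1 - t) • T (z 0)) =
            t • (T (z (Fin.succ i)) - T (z (Fin.succ j))) := by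
          rw [smul_sub]; abel
        have n1 : ‖(t • z (Fin.succ i) + (1 - t) • z 0) - (t • z (Fin.succ j) + (1 - t) • z 0)‖ =
            t * ‖z (Fin.succ i) - z (Fin.succ j)‖ := by
          rw [e1, norm_smul, Real.norm_eq_abs, abs_of_nonneg ht0]
        have n2 : ‖(t • T (z (Fin.succ i)) + (1 - t) • T (z 0)) -
            (t • T (z (Fin.succ j)) + (1 - t) • T (z 0))‖ =
            t * ‖T (z (Fin.succ i)) - T (z (Fin.succ j))‖ := by
          rw [e2, norm_smul, Real.norm_eq_abs, abs_of_nonneg ht0]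
        have n3 : ‖(t • T (z (Fin.succ i)) + (1 - t) • T (z 0)) -
            (t • T (z (Fin.succ j)) + (1 - t) • T (z 0))‖ ≤
            ‖T (t • z (Fin.succ i) + (1 - t) • z 0) - T (t • z (Fin.succ j) + (1 - t) • z 0)‖ +
            ‖T (t • z (Fin.succ i) + (1 - t) • z 0) -
              (t • T (z (Fin.succ i)) + (1 - t) • T (z 0))‖ +
            ‖T (t • z (Fin.succ j) + (1 - t) • z 0) -
              (t • T (z (Fin.succ j)) + (1 - t) • T (z 0))‖ := by
          have e3 : (t • T (z (Fin.succ i)) + (1 - t) • T (z 0)) -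
            (t • T (z (Fin.succ j)) + (1 - t) • T (z 0)) =
            (T (t • z (Fin.succ i) + (1 - t) • z 0) - T (t • z (Fin.succ j) + (1 - t) • z 0)) -
            (T (t • z (Fin.succ i) + (1 - t) • z 0) -
              (t • T (z (Fin.succ i)) + (1 - t) • T (z 0))) +
            (T (t • z (Fin.succ j) + (1 - t) • z 0) -
              (t • T (z (Fin.succ j)) + (1 - t) • T (z 0))) := by abel
          rw [e3]
          refine (norm_add_le _ _).trans ?_
          gcongr
          exact norm_sub_le _ _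
        have m1 := hA i
        have m2 := hA j
        have m3 : min (ε / 2) (η1 / 4) ≤ η1 / 4 := min_le_right _ _
        have m4 := (hzz (Fin.succ i) (Fin.succ j)).trans (min_le_right _ _)
        rw [n2] at n3
        rw [n1]
        have m5 : t * ‖z (Fin.succ i) - z (Fin.succ j)‖ -
            t * ‖T (z (Fin.succ i)) - T (z (Fin.succ j))‖ ≤ η1 / 4 := by
          rw [← mul_sub]
          calc t * (‖z (Fin.succ i) - z (Fin.succ j)‖ -
                ‖T (z (Fin.succ i)) - T (z (Fin.succ j))‖) ≤ t * (η1 / 4) :=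
                mul_le_mul_of_nonneg_left m4 ht0
            _ ≤ 1 * (η1 / 4) := mul_le_mul_of_nonneg_right ht1 (by linarith)
            _ = η1 / 4 := one_mul _
        linarith
      have hI := H1 T hT (fun i => t • z (Fin.succ i) + (1 - t) • z 0)
        (fun i => w (Fin.succ i) / t) hu hvn hv hB
      rw [n_point_sum w t ht htw hv z] at hI
      have hJ : ‖∑ i : Fin (n + 1), (w (Fin.succ i) / t) • T (t • z (Fin.succ i) + (1 - t) • z 0) -
          ∑ i, w i • T (z i)‖ ≤ ε / 2 := by
        rw [← n_point_sum w t ht htw hv (fun i => T (z i)), ← Finset.sum_sub_distrib]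
        calc ‖∑ i : Fin (n + 1), ((w (Fin.succ i) / t) • T (t • z (Fin.succ i) + (1 - t) • z 0) -
              (w (Fin.succ i) / t) • (t • T (z (Fin.succ i)) + (1 - t) • T (z 0)))‖
            ≤ ∑ i : Fin (n + 1), (w (Fin.succ i) / t) * (ε / 2) := by
              apply norm_sum_le_of_le
              intro i _
              rw [← smul_sub, norm_smul, Real.norm_eq_abs, abs_of_nonneg (hvn i)]
              exact mul_le_mul_of_nonneg_left ((hA i).trans (min_le_left _ _)) (hvn i)
          _ = ε / 2 := by rw [← Finset.sum_mul, hv, one_mul]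
      calc ‖T (∑ i, w i • z i) - ∑ i, w i • T (z i)‖
          = ‖(T (∑ i, w i • z i) -
              ∑ i : Fin (n + 1), (w (Fin.succ i) / t) • T (t • z (Fin.succ i) + (1 - t) • z 0)) +
            (∑ i : Fin (n + 1), (w (Fin.succ i) / t) • T (t • z (Fin.succ i) + (1 - t) • z 0) -
              ∑ i, w i • T (z i))‖ := by congr 1; abel
        _ ≤ ε / 2 + ε / 2 := (norm_add_le _ _).trans (add_le_add hI hJ)
        _ = ε := by ring

end Pool.Agent.Helper155.NME
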