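import Mathlib

set_option autoImplicit false
open Filter Topology Set

namespace Pool.Agent.Helper155.NME

theorem two_point_core (X : Type*) [NormedAddCommGroup X] [NormedSpace ℝ X] [UniformConvexSpace X]
    (R ε : ℝ) (hR : 0 < R) (hε : 0 < ε) :
    ∃ η > 0, ∀ (a b : X) (d t : ℝ), 0 ≤ t → t ≤ 1 → 0 ≤ d → d ≤ R →
      ‖a‖ ≤ t * d → ‖b‖ ≤ (1 - t) * d → d - η ≤ ‖a + b‖ →
      ‖(1 - t) • a - t • b‖ ≤ ε := by
  obtain ⟨δ, hδ, hδ2⟩ := exists_forall_closed_ball_dist_add_le_two_sub X
    (show (0:ℝ) < 4 * ε / R by positivity)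
  have key : ∀ (a b : X) (d t : ℝ), 0 ≤ t → t ≤ 1 / 2 → 0 ≤ d → d ≤ R →
      ‖a‖ ≤ t * d → ‖b‖ ≤ (1 - t) * d → ε < ‖(1 - t) • a - t • b‖ →
      ‖a + b‖ ≤ d - ε * δ / 2 := by
    intro a b d t ht0 ht1 hd0 hdR ha hb hN
    have h1t : 0 < 1 - t := by linarith
    have hN2 : ‖(1 - t) • a - t • b‖ ≤ 2 * t * (1 - t) * d := by
      refine (norm_sub_le _ _).trans ?_
      rw [norm_smul, norm_smul, Real.norm_eq_abs, Real.norm_eq_abs, abs_of_pos h1t,
        abs_of_nonneg ht0]
      have e1 := mul_le_mul_of_nonneg_left ha h1t.le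
      have e2 := mul_le_mul_of_nonneg_left hb ht0
      nlinarith
    have htd : 0 < t * d := by
      by_contra hcon
      push Not at hcon
      have : 2 * t * (1 - t) * d = 2 * (1 - t) * (t * d) := by ring
      rw [this] at hN2
      have h3 : 2 * (1 - t) * (t * d) ≤ 0 := mul_nonpos_of_nonneg_of_nonpos (by linarith) hcon
      linarith
    have ht : 0 < t := by
      rcases ht0.lt_or_eq with h | h
      · exact h
      · rw [← h, zero_mul] at htd; exact absurd htd (lt_irrefl _)
    have hd : 0 < d := (mul_pos_iff_of_pos_left ht).1 htd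
    have h1td : 0 < (1 - t) * d := mul_pos h1t hd
    obtain ⟨x, hx⟩ : ∃ x : X, x = (1 / (t * d)) • a := ⟨_, rfl⟩
    obtain ⟨y, hy⟩ : ∃ y : X, y = (1 / ((1 - t) * d)) • b := ⟨_, rfl⟩
    have hxa : a = (t * d) • x := by
      rw [hx, smul_smul, mul_one_div_cancel htd.ne', one_smul]
    have hyb : b = ((1 - t) * d) • y := by
      rw [hy, smul_smul, mul_one_div_cancel h1td.ne', one_smul]
    have hx1 : ‖x‖ ≤ 1 := by
      rw [hx, norm_smul, Real.norm_eq_abs, abs_of_pos (by positivity), one_div,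
        inv_mul_le_iff₀ htd, mul_one]
      exact ha
    have hy1 : ‖y‖ ≤ 1 := by
      rw [hy, norm_smul, Real.norm_eq_abs, abs_of_pos (by positivity), one_div,
        inv_mul_le_iff₀ h1td, mul_one]
      exact hb
    have hxy : (1 - t) • a - t • b = (t * (1 - t) * d) • (x - y) := by
      rw [hxa, hyb, smul_smul, smul_smul, smul_sub]
      congr 2 <;> ring
    have hpos : 0 < t * (1 - t) * d := by positivity
    have hN3 : ‖(1 - t) • a - t • b‖ = t * (1 - t) * d * ‖x - y‖ := by
      rw [hxy, norm_smul, Real.norm_eq_abs, abs_of_pos hpos]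
    have hxy2 : 4 * ε / R ≤ ‖x - y‖ := by
      rw [hN3] at hN
      rw [div_le_iff₀ hR]
      have e1 : t * (1 - t) * d ≤ R / 4 := by
        have e2 : t * (1 - t) ≤ 1 / 4 := by nlinarith [sq_nonneg (t - 1 / 2)]
        calc t * (1 - t) * d ≤ 1 / 4 * d := mul_le_mul_of_nonneg_right e2 hd0
          _ ≤ R / 4 := by linarith
      have e3 : t * (1 - t) * d * ‖x - y‖ ≤ R / 4 * ‖x - y‖ :=
        mul_le_mul_of_nonneg_right e1 (norm_nonneg _)
      linarith
    have h4 := hδ2 hx1 hy1 hxy2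
    have hab : a + b = (t * d) • (x + y) + ((1 - 2 * t) * d) • y := by
      have e1 : ((1 - t) * d) • y = (t * d) • y + ((1 - 2 * t) * d) • y := by
        rw [← add_smul]; congr 1; ring
      rw [hxa, hyb, e1, smul_add]
      abel_nf
    have h5 : ‖a + b‖ ≤ t * d * (2 - δ) + (1 - 2 * t) * d := by
      rw [hab]
      refine (norm_add_le _ _).trans ?_
      rw [norm_smul, norm_smul, Real.norm_eq_abs, Real.norm_eq_abs, abs_of_pos htd,
        abs_of_nonneg (by nlinarith : 0 ≤ (1 - 2 * t) * d)]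
      have e1 := mul_le_mul_of_nonneg_left h4 htd.le
      have e2 := mul_le_mul_of_nonneg_left hy1 (by nlinarith : 0 ≤ (1 - 2 * t) * d)
      linarith
    have h6 : ε / 2 < t * d := by
      have e1 : 2 * t * (1 - t) * d ≤ 2 * (t * d) := by nlinarith
      linarith
    have h7 : ε / 2 * δ ≤ t * d * δ := mul_le_mul_of_nonneg_right h6.le hδ.le
    nlinarith
  refine ⟨ε * δ / 4, by positivity, fun a b d t ht0 ht1 hd0 hdR ha hb hab => ?_⟩
  by_contra hcon
  push Not at hcon
  have hpos : 0 < ε * δ := by positivity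
  rcases le_total t (1 / 2) with h | h
  · have := key a b d t ht0 h hd0 hdR ha hb hcon
    linarith
  · have h1 : ‖(1 - t) • a - t • b‖ = ‖(1 - (1 - t)) • b - (1 - t) • a‖ := by
      rw [← norm_neg]; congr 1
      rw [neg_sub]; congr 2; ring
    rw [h1] at hcon
    have := key b a d (1 - t) (by linarith) (by linarith) hd0 hdR hb (by
      have : 1 - (1 - t) = t := by ring
      rw [this]; exact ha) hcon
    rw [add_comm] at this
    linarith

end Pool.Agent.Helper155.NME
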