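import Mathlib

set_option autoImplicit false
open Filter Topology Set

namespace Pool.Agent.Helper155.NME

/-- closed convex hull of the values on `A` -/
def wuK {X : Type*} [NormedAddCommGroup X] [NormedSpace ℝ X] {G : Type*} (Y : G → X) (A : Set G) :
    Set X := closure (convexHull ℝ (Y '' A))

theorem wuK_mono {X : Type*} [NormedAddCommGroup X] [NormedSpace ℝ X] {G : Type*} (Y : G → X)
    {A B : Set G} (h : A ⊆ B) : wuK Y A ⊆ wuK Y B :=
  closure_mono (convexHull_mono (image_mono h))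

theorem wuK_mem {X : Type*} [NormedAddCommGroup X] [NormedSpace ℝ X] {G : Type*} (Y : G → X)
    {A : Set G} {g : G} (h : g ∈ A) : Y g ∈ wuK Y A :=
  subset_closure (subset_convexHull ℝ _ (mem_image_of_mem Y h))

theorem wuK_convex {X : Type*} [NormedAddCommGroup X] [NormedSpace ℝ X] {G : Type*} (Y : G → X)
    (A : Set G) : Convex ℝ (wuK Y A) := (convex_convexHull ℝ _).closure

theorem wuK_sub {X : Type*} [NormedAddCommGroup X] [NormedSpace ℝ X] {G : Type*} (Y : G → X)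
    {A : Set G} {S : Set X} (hS : Convex ℝ S) (hSc : IsClosed S) (h : ∀ g ∈ A, Y g ∈ S) :
    wuK Y A ⊆ S := by
  apply closure_minimal _ hSc
  apply convexHull_min _ hS
  rintro _ ⟨g, hg, rfl⟩
  exact h g hg

theorem wu_unif {X : Type*} [NormedAddCommGroup X] [NormedSpace ℝ X]
    [UniformConvexSpace X] (D ε : ℝ) (hD : 0 ≤ D) (hε : 0 < ε) :
    ∃ e : ℝ, 0 < e ∧ ∀ x y : X, ‖x‖ < D + e → ‖y‖ < D + e → 2 * (D - e) ≤ ‖x + y‖ →
      ‖x - y‖ < ε := by
  rcases hD.eq_or_lt with h0 | h0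
  · refine ⟨ε / 2, by positivity, fun x y hx hy _ => ?_⟩
    have := norm_sub_le x y
    linarith
  · obtain ⟨δ, hδ, hδ2⟩ := exists_forall_closed_ball_dist_add_le_two_sub X
      (show 0 < ε / (D + 1) by positivity)
    refine ⟨min 1 (δ * D / 8), by positivity, fun x y hx hy hxy => ?_⟩
    obtain ⟨e, he⟩ : ∃ e, e = min 1 (δ * D / 8) := ⟨_, rfl⟩
    rw [← he] at hx hy hxy
    have he0 : 0 < e := by rw [he]; positivity
    have he1 : e ≤ 1 := by rw [he]; exact min_le_left _ _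
    have he2 : e ≤ δ * D / 8 := by rw [he]; exact min_le_right _ _
    by_contra hcon
    push Not at hcon
    have hDe : 0 < D + e := by positivity
    have n1 : ∀ z : X, ‖(D + e)⁻¹ • z‖ = ‖z‖ / (D + e) := by
      intro z
      rw [norm_smul, norm_inv, Real.norm_of_nonneg hDe.le]
      ring
    have h1 : ‖(D + e)⁻¹ • x‖ ≤ 1 := by
      rw [n1, div_le_one hDe]
      exact hx.le
    have h2 : ‖(D + e)⁻¹ • y‖ ≤ 1 := by
      rw [n1, div_le_one hDe]
      exact hy.le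
    have h3 : ε / (D + 1) ≤ ‖(D + e)⁻¹ • x - (D + e)⁻¹ • y‖ := by
      rw [← smul_sub, n1]
      apply div_le_div₀ (norm_nonneg _) hcon hDe
      linarith
    have h4 := hδ2 h1 h2 h3
    rw [← smul_add, n1, div_le_iff₀ hDe] at h4
    nlinarith

theorem weak_ultralimit (X : Type*) [NormedAddCommGroup X] [NormedSpace ℝ X]
    [UniformConvexSpace X] [CompleteSpace X]
    {G : Type*} (P : Ultrafilter G) (C : Set X) (hC : Convex ℝ C) (hCc : IsClosed C)
    (Y : G → X) (hY : ∀ g, Y g ∈ C) (M : ℝ) (hM : ∀ g, ‖Y g‖ ≤ M) :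
    ∃ p ∈ C, ∀ φ : X →L[ℝ] ℝ, Tendsto (fun g => φ (Y g)) (P : Filter G) (𝓝 (φ p)) := by
  have hne : ∀ A ∈ P, A.Nonempty := fun A hA => P.nonempty_of_mem hA
  obtain ⟨T, hT⟩ : ∃ T : Set ℝ, T = {t | ∃ A ∈ P, t = Metric.infDist 0 (wuK Y A)} := ⟨_, rfl⟩
  have hTb : BddAbove T := by
    refine ⟨M, ?_⟩
    rw [hT]
    rintro _ ⟨A, hA, rfl⟩
    obtain ⟨g, hg⟩ := hne A hA
    have h1 := Metric.infDist_le_dist_of_mem (x := (0 : X)) (wuK_mem Y hg)
    rw [dist_zero_left] at h1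
    exact h1.trans (hM g)
  have hTm : ∀ A ∈ P, Metric.infDist 0 (wuK Y A) ∈ T := fun A hA => by
    rw [hT]; exact ⟨A, hA, rfl⟩
  have hTne : T.Nonempty := ⟨_, hTm univ univ_mem⟩
  obtain ⟨D, hD⟩ : ∃ D, D = sSup T := ⟨_, rfl⟩
  have hDA : ∀ A ∈ P, Metric.infDist 0 (wuK Y A) ≤ D := fun A hA => by
    rw [hD]; exact le_csSup hTb (hTm A hA)
  have hD0 : 0 ≤ D := Metric.infDist_nonneg.trans (hDA univ univ_mem)
  obtain ⟨F, hF⟩ : ∃ F : Set G → ℝ → Set X, ∀ A e, F A e = {x | x ∈ wuK Y A ∧ ‖x‖ < D + e} :=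
    ⟨_, fun _ _ => rfl⟩
  have hFm : ∀ A e x, x ∈ F A e ↔ x ∈ wuK Y A ∧ ‖x‖ < D + e := fun A e x => by
    rw [hF]; rfl
  have hFne : ∀ A ∈ P, ∀ e, 0 < e → (F A e).Nonempty := by
    intro A hA e he
    obtain ⟨g, hg⟩ := hne A hA
    have h1 : Metric.infDist 0 (wuK Y A) < D + e := (hDA A hA).trans_lt (by linarith)
    obtain ⟨x, hx, hx2⟩ := (Metric.infDist_lt_iff ⟨_, wuK_mem Y hg⟩).1 h1
    rw [dist_zero_left] at hx2
    exact ⟨x, (hFm _ _ _).2 ⟨hx, hx2⟩⟩
  let ℱ : Filter X :=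
    { sets := {s | ∃ A ∈ P, ∃ e : ℝ, 0 < e ∧ F A e ⊆ s}
      univ_sets := ⟨univ, univ_mem, 1, one_pos, subset_univ _⟩
      sets_of_superset := by
        rintro s t ⟨A, hA, e, he, h⟩ hst
        exact ⟨A, hA, e, he, h.trans hst⟩
      inter_sets := by
        rintro s t ⟨A, hA, e, he, h⟩ ⟨B, hB, e', he', h'⟩
        refine ⟨A ∩ B, inter_mem hA hB, min e e', lt_min he he', fun x hx => ?_⟩
        obtain ⟨h1, h2⟩ := (hFm _ _ _).1 hx
        refine ⟨h ((hFm _ _ _).2 ⟨wuK_mono Y inter_subset_left h1, ?_⟩),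
          h' ((hFm _ _ _).2 ⟨wuK_mono Y inter_subset_right h1, ?_⟩)⟩
        · have := min_le_left e e'
          linarith
        · have := min_le_right e e'
          linarith }
  have hℱ : ∀ s, s ∈ ℱ ↔ ∃ A ∈ P, ∃ e : ℝ, 0 < e ∧ F A e ⊆ s := fun s => Iff.rfl
  have hnb : ℱ.NeBot := by
    rw [← forall_mem_nonempty_iff_neBot]
    intro s hs
    obtain ⟨A, hA, e, he, h⟩ := (hℱ s).1 hs
    exact (hFne A hA e he).mono h
  have hcau : Cauchy ℱ := by
    rw [Metric.cauchy_iff]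
    refine ⟨hnb, fun ε hε => ?_⟩
    obtain ⟨e, he, hu⟩ := wu_unif (X := X) D ε hD0 hε
    obtain ⟨t, ht, ht2⟩ := exists_lt_of_lt_csSup hTne (show D - e < sSup T by rw [← hD]; linarith)
    rw [hT] at ht
    obtain ⟨A, hA, rfl⟩ := ht
    refine ⟨F A e, (hℱ _).2 ⟨A, hA, e, he, le_rfl⟩, fun x hx y hy => ?_⟩
    obtain ⟨hx1, hx2⟩ := (hFm _ _ _).1 hx
    obtain ⟨hy1, hy2⟩ := (hFm _ _ _).1 hy
    rw [dist_eq_norm]
    apply hu x y hx2 hy2
    have hmid : (1 / 2 : ℝ) • x + (1 / 2 : ℝ) • y ∈ wuK Y A :=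
      wuK_convex Y A hx1 hy1 (by norm_num) (by norm_num) (by norm_num)
    have h1 := Metric.infDist_le_dist_of_mem (x := (0 : X)) hmid
    rw [dist_zero_left, ← smul_add, norm_smul, Real.norm_of_nonneg (by norm_num)] at h1
    linarith
  obtain ⟨p, hp⟩ := CompleteSpace.complete hcau
  have hpK : ∀ A ∈ P, p ∈ wuK Y A := by
    intro A hA
    have hcl : IsClosed (wuK Y A) := isClosed_closure
    refine hcl.mem_of_tendsto (f := id) (b := ℱ) hp ?_
    refine (hℱ _).2 ⟨A, hA, 1, one_pos, fun x hx => ?_⟩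
    exact ((hFm _ _ _).1 hx).1
  refine ⟨p, wuK_sub Y hC hCc (fun g _ => hY g) (hpK univ univ_mem), fun φ => ?_⟩
  rw [tendsto_order]
  constructor
  · intro a ha
    by_contra hcon
    have h1 : {g | φ (Y g) ≤ a} ∈ P := by
      have h2 := Ultrafilter.eventually_not.2 hcon
      filter_upwards [h2] with g hg
      exact not_lt.1 hg
    have h3 := wuK_sub Y (S := {x | φ x ≤ a}) (convex_halfSpace_le φ.isLinear a)
      (isClosed_le φ.continuous continuous_const) (A := {g | φ (Y g) ≤ a}) (fun g hg => hg)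
      (hpK _ h1)
    exact absurd ha (not_lt.2 h3)
  · intro a ha
    by_contra hcon
    have h1 : {g | a ≤ φ (Y g)} ∈ P := by
      have h2 := Ultrafilter.eventually_not.2 hcon
      filter_upwards [h2] with g hg
      exact not_lt.1 hg
    have h3 := wuK_sub Y (S := {x | a ≤ φ x}) (convex_halfSpace_ge φ.isLinear a)
      (isClosed_le continuous_const φ.continuous) (A := {g | a ≤ φ (Y g)}) (fun g hg => hg)
      (hpK _ h1)
    exact absurd ha (not_lt.2 h3)

end Pool.Agent.Helper155.NME
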