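import Mathlib
import Pool.Agent.Helper155.NME.Basic
set_option autoImplicit false
open Filter Topology Set

namespace Pool.Agent.Helper155.NME

variable {X : Type*} [NormedAddCommGroup X] [NormedSpace ℝ X]

theorem win_shift (x : ℕ → X) (D : ℝ) (hD : ∀ i j, ‖x i - x j‖ ≤ D) (L : ℕ) (hL : 0 < L)
    (k l : ℕ) : ‖win x L (k + l) - win x L k‖ ≤ l * D / L := by
  have hL' : (0 : ℝ) < L := by exact_mod_cast hL
  induction l with
  | zero => simp
  | succ l ih =>
    have h1 : win x L (k + (l + 1)) - win x L (k + l) =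
        (L : ℝ)⁻¹ • (x (k + l + L) - x (k + l)) := by
      unfold win
      rw [← smul_sub]
      congr 1
      have h2 := Finset.sum_range_succ (fun i => x (k + l + i)) L
      have h3 := Finset.sum_range_succ' (fun i => x (k + l + i)) L
      rw [h2] at h3
      have h4 : ∀ i, k + (l + 1) + i = k + l + (i + 1) := fun i => by ring
      simp only [h4]
      rw [add_zero] at h3
      rw [sub_eq_sub_iff_add_eq_add, ← h3, add_comm]
    have h5 : ‖win x L (k + (l + 1)) - win x L (k + l)‖ ≤ D / L := by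
      rw [h1, norm_smul, norm_inv, Real.norm_of_nonneg hL'.le, div_eq_inv_mul]
      exact mul_le_mul_of_nonneg_left (hD _ _) (inv_nonneg.2 hL'.le)
    calc ‖win x L (k + (l + 1)) - win x L k‖
        = ‖(win x L (k + (l + 1)) - win x L (k + l)) + (win x L (k + l) - win x L k)‖ := by
          congr 1; abel
      _ ≤ D / L + l * D / L := (norm_add_le _ _).trans (add_le_add h5 ih)
      _ = ((l + 1 : ℕ) : ℝ) * D / L := by push_cast; ring

theorem win_fubini (x : ℕ → X) (L N k : ℕ) :
    (N : ℝ)⁻¹ • ∑ i ∈ Finset.range N, win x L (k + i) =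
      (L : ℝ)⁻¹ • ∑ j ∈ Finset.range L, win x N (k + j) := by
  unfold win
  rw [← Finset.smul_sum, ← Finset.smul_sum, smul_smul, smul_smul, mul_comm, Finset.sum_comm]
  congr 1
  refine Finset.sum_congr rfl fun j _ => Finset.sum_congr rfl fun i _ => ?_
  congr 1
  ring

theorem win_avg_close (x : ℕ → X) (D : ℝ) (hD : ∀ i j, ‖x i - x j‖ ≤ D) (L N : ℕ)
    (hL : 0 < L) (hN : 0 < N) (k : ℕ) :
    ‖(N : ℝ)⁻¹ • ∑ i ∈ Finset.range N, win x L (k + i) - win x N k‖ ≤ L * D / N := by
  have hL' : (0 : ℝ) < L := by exact_mod_cast hL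
  have hN' : (0 : ℝ) < N := by exact_mod_cast hN
  have hD0 : 0 ≤ D := (norm_nonneg _).trans (hD 0 0)
  rw [win_fubini]
  have h1 : win x N k = (L : ℝ)⁻¹ • ∑ j ∈ Finset.range L, win x N k := by
    rw [Finset.sum_const, Finset.card_range, ← Nat.cast_smul_eq_nsmul ℝ, smul_smul,
      inv_mul_cancel₀ hL'.ne', one_smul]
  have h2 : (L : ℝ)⁻¹ • ∑ j ∈ Finset.range L, win x N (k + j) - win x N k =
      (L : ℝ)⁻¹ • ∑ j ∈ Finset.range L, (win x N (k + j) - win x N k) := by
    rw [Finset.sum_sub_distrib, smul_sub, ← h1]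
  rw [h2, norm_smul, norm_inv, Real.norm_of_nonneg hL'.le]
  have h3 : ‖∑ j ∈ Finset.range L, (win x N (k + j) - win x N k)‖ ≤ L * (L * D / N) := by
    refine (norm_sum_le _ _).trans ?_
    refine (Finset.sum_le_card_nsmul _ _ (L * D / N) ?_).trans ?_
    · intro j hj
      refine (win_shift x D hD N hN k j).trans ?_
      have : (j : ℝ) ≤ L := by exact_mod_cast (Finset.mem_range.1 hj).le
      gcongr
    · rw [Finset.card_range, nsmul_eq_mul]
  calc (L : ℝ)⁻¹ * ‖∑ j ∈ Finset.range L, (win x N (k + j) - win x N k)‖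
      ≤ (L : ℝ)⁻¹ * (L * (L * D / N)) := mul_le_mul_of_nonneg_left h3 (inv_nonneg.2 hL'.le)
    _ = L * D / N := by field_simp

end Pool.Agent.Helper155.NME
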