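import Mathlib
import Pool.Agent.Helper155.NME.Basic
import Pool.Agent.Helper155.NME.Steps
import Pool.Agent.Helper155.NME.TwoPoint
import Pool.Agent.Helper155.NME.NPoint
import Pool.Agent.Helper155.NME.Kak
import Pool.Agent.Helper155.NME.Weak
import Pool.Agent.Helper155.NME.Anti
import Pool.Agent.Helper155.NME.Windows

set_option autoImplicit false

open Filter Topology Set

namespace Pool.Agent.Helper155.NME

variable {X : Type*} [NormedAddCommGroup X] [NormedSpace ℝ X]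

theorem two_point [UniformConvexSpace X] {C : Set X} (hC : Convex ℝ C) {R : ℝ} (hR : 0 < R)
    (hRC : ∀ x ∈ C, ∀ y ∈ C, ‖x - y‖ ≤ R) :
    ∀ ε > (0 : ℝ), ∃ η > (0 : ℝ), ∀ T : X → X, NE C T → ∀ u ∈ C, ∀ v ∈ C, ∀ t : ℝ,
      0 ≤ t → t ≤ 1 → ‖u - v‖ - ‖T u - T v‖ ≤ η →
      ‖T (t • u + (1 - t) • v) - (t • T u + (1 - t) • T v)‖ ≤ ε := by
  intro ε hε
  obtain ⟨η, hη, H⟩ := two_point_core X R ε hR hε
  refine ⟨η, hη, ?_⟩
  intro T hT u hu v hv t ht0 ht1 hd
  set m : X := t • u + (1 - t) • v with hm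
  have hmC : m ∈ C := hC hu hv ht0 (by linarith) (by ring)
  have h1 : ‖T m - T v‖ ≤ t * ‖u - v‖ := by
    refine (hT.le m hmC v hv).trans (le_of_eq ?_)
    have : m - v = t • (u - v) := by rw [hm]; module
    rw [this, norm_smul_of_nonneg ht0]
  have h2 : ‖T u - T m‖ ≤ (1 - t) * ‖u - v‖ := by
    refine (hT.le u hu m hmC).trans (le_of_eq ?_)
    have : u - m = (1 - t) • (u - v) := by rw [hm]; module
    rw [this, norm_smul_of_nonneg (by linarith)]
  have h3 := H (T m - T v) (T u - T m) ‖u - v‖ t ht0 ht1 (norm_nonneg _) (hRC u hu v hv) h1 h2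
    (by
      have : T m - T v + (T u - T m) = T u - T v := by abel
      rw [this]; linarith)
  have e : T m - (t • T u + (1 - t) • T v) = (1 - t) • (T m - T v) - t • (T u - T m) := by module
  rw [e]; exact h3

theorem npf [UniformConvexSpace X] {C : Set X} (hC : Convex ℝ C) {R : ℝ} (hR : 0 < R)
    (hRC : ∀ x ∈ C, ∀ y ∈ C, ‖x - y‖ ≤ R) : NPF C :=
  fun n => n_point hC (two_point hC hR hRC) n

theorem win_mem {C : Set X} (hC : Convex ℝ C) (x : ℕ → X) (hx : ∀ i, x i ∈ C) (L : ℕ)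
    (hL : 0 < L) (k : ℕ) : win x L k ∈ C := by
  rw [win, Finset.smul_sum]
  have hL' : (0 : ℝ) < L := by exact_mod_cast hL
  apply hC.sum_mem
  · intro i _; positivity
  · rw [Finset.sum_const, Finset.card_range, nsmul_eq_mul]
    field_simp
  · intro i _; exact hx _

/-- `U^m` is almost affine on windows of a fixed length. -/
theorem win_iterate {C : Set X} (hNP : NPF C) {U : X → X} (hU : NE C U) {x0 : X} (hx0 : x0 ∈ C)
    (L : ℕ) (ε : ℝ) (hε : 0 < ε) :
    ∀ᶠ k in atTop, ∀ m : ℕ,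
      ‖U^[m] (win (fun i => U^[i] x0) (L + 1) k) - win (fun i => U^[i] x0) (L + 1) (k + m)‖ ≤ ε := by
  obtain ⟨η, hη, H⟩ := hNP L ε hε
  have hxC : ∀ i, U^[i] x0 ∈ C := fun i => (hU.iterate i).maps x0 hx0
  have hpair : ∀ i j : Fin (L + 1), ∀ᶠ k in atTop, ∀ m : ℕ,
      ‖U^[k + i] x0 - U^[k + j] x0‖ - ‖U^[k + m + i] x0 - U^[k + m + j] x0‖ ≤ η := by
    intro i j
    obtain ⟨K, hK⟩ := almost_antitone (fun k => ‖U^[k + i] x0 - U^[k + j] x0‖) 0
      (fun k => norm_nonneg _)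
      (by
        intro ε' hε'
        refine ⟨0, fun k _ m => ?_⟩
        have e1 : U^[k + m + (i : ℕ)] x0 = U^[m] (U^[k + (i : ℕ)] x0) := by
          rw [← Function.iterate_add_apply]; congr 1; ring
        have e2 : U^[k + m + (j : ℕ)] x0 = U^[m] (U^[k + (j : ℕ)] x0) := by
          rw [← Function.iterate_add_apply]; congr 1; ring
        rw [e1, e2]
        have := (hU.iterate m).le _ (hxC (k + i)) _ (hxC (k + j))
        linarith)
      η hη
    filter_upwards [eventually_ge_atTop K] with k hk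
    exact hK k hk
  have hall : ∀ᶠ k in atTop, ∀ i j : Fin (L + 1), ∀ m : ℕ,
      ‖U^[k + i] x0 - U^[k + j] x0‖ - ‖U^[k + m + i] x0 - U^[k + m + j] x0‖ ≤ η := by
    rw [Filter.eventually_all]
    intro i
    rw [Filter.eventually_all]
    intro j
    exact hpair i j
  filter_upwards [hall] with k hk m
  have hL' : (0 : ℝ) < ((L + 1 : ℕ) : ℝ) := by positivity
  have h1 := H (U^[m]) (hU.iterate m) (fun i => U^[k + i] x0) (fun _ => ((L + 1 : ℕ) : ℝ)⁻¹)
    (fun i => hxC _) (fun i => by positivity)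
    (by rw [Finset.sum_const, Finset.card_univ, Fintype.card_fin, nsmul_eq_mul]; field_simp)
    (by
      intro i j
      have e1 : U^[m] (U^[k + (i : ℕ)] x0) = U^[k + m + (i : ℕ)] x0 := by
        rw [← Function.iterate_add_apply]; congr 1; ring
      have e2 : U^[m] (U^[k + (j : ℕ)] x0) = U^[k + m + (j : ℕ)] x0 := by
        rw [← Function.iterate_add_apply]; congr 1; ring
      rw [e1, e2]
      exact hk i j m)
  have e3 : ∑ i : Fin (L + 1), ((L + 1 : ℕ) : ℝ)⁻¹ • U^[k + i] x0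
      = win (fun i => U^[i] x0) (L + 1) k := by
    rw [win, Finset.smul_sum, Finset.sum_range]
  have e4 : ∑ i : Fin (L + 1), ((L + 1 : ℕ) : ℝ)⁻¹ • U^[m] (U^[k + (i : ℕ)] x0)
      = win (fun i => U^[i] x0) (L + 1) (k + m) := by
    rw [win, Finset.smul_sum, Finset.sum_range]
    refine Finset.sum_congr rfl fun i _ => ?_
    congr 1
    rw [← Function.iterate_add_apply]; congr 1; ring
  rw [e3, e4] at h1
  exact h1

/-- A nonincreasing functional along orbits is almost constant along good windows. -/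
theorem rho_lemma {C : Set X} (hC : Convex ℝ C) (hNP : NPF C) {U : X → X} (hU : NE C U) {x0 : X}
    (hx0 : x0 ∈ C) (ρ : X → ℝ) (hρ0 : ∀ z ∈ C, 0 ≤ ρ z)
    (hρ1 : ∀ z ∈ C, ∀ z' ∈ C, ρ z ≤ ρ z' + ‖z - z'‖)
    (hρ2 : ∀ z ∈ C, ∀ m : ℕ, ρ (U^[m] z) ≤ ρ z) (L : ℕ) (ε : ℝ) (hε : 0 < ε) :
    ∀ᶠ k in atTop, ∀ m : ℕ,
      ρ (win (fun i => U^[i] x0) (L + 1) k) - ρ (U^[m] (win (fun i => U^[i] x0) (L + 1) k)) ≤ ε := by
  set x : ℕ → X := fun i => U^[i] x0 with hx
  have hxC : ∀ i, x i ∈ C := fun i => (hU.iterate i).maps x0 hx0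
  have hwC : ∀ k, win x (L + 1) k ∈ C := fun k => win_mem hC x hxC (L + 1) (by omega) k
  obtain ⟨K, hK⟩ := almost_antitone (fun k => ρ (win x (L + 1) k)) 0 (fun k => hρ0 _ (hwC k))
    (by
      intro ε' hε'
      obtain ⟨K, hK⟩ := Filter.eventually_atTop.1 (win_iterate hNP hU hx0 L ε' hε')
      refine ⟨K, fun k hk m => ?_⟩
      have h1 := hρ1 _ (hwC (k + m)) _ ((hU.iterate m).maps _ (hwC k))
      have h2 := hρ2 _ (hwC k) m
      have h3 := hK k hk m
      rw [norm_sub_rev] at h3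
      linarith) (ε / 2) (by linarith)
  filter_upwards [eventually_ge_atTop K, win_iterate hNP hU hx0 L (ε / 2) (by linarith)]
    with k hk hk2 m
  have h1 := hK k hk m
  have h2 := hk2 m
  have h3 := hρ1 _ (hwC (k + m)) _ ((hU.iterate m).maps _ (hwC k))
  rw [norm_sub_rev] at h2
  linarith

/-- Windows along the curried filter. -/
noncomputable def Yw (U : X → X) (x0 : X) (g : ℕ × ℕ) : X :=
  win (fun i => U^[i] x0) (g.1 + 1) g.2

abbrev 𝓖 : Filter (ℕ × ℕ) := (atTop : Filter ℕ).curry (atTop : Filter ℕ)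

theorem Yw_mem {C : Set X} (hC : Convex ℝ C) {U : X → X} (hU : NE C U) {x0 : X}
    (hx0 : x0 ∈ C) (g : ℕ × ℕ) : Yw U x0 g ∈ C :=
  win_mem hC _ (fun i => (hU.iterate i).maps x0 hx0) _ (by omega) _

omit [NormedSpace ℝ X] in
theorem orbit_bound {C : Set X} {R : ℝ} (hRC : ∀ x ∈ C, ∀ y ∈ C, ‖x - y‖ ≤ R) {U : X → X}
    (hU : NE C U) {x0 : X} (hx0 : x0 ∈ C) (i j : ℕ) : ‖U^[i] x0 - U^[j] x0‖ ≤ R :=
  hRC _ ((hU.iterate i).maps x0 hx0) _ ((hU.iterate j).maps x0 hx0)

/-- Long good windows are almost fixed by `U^m`. -/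
theorem almost_fixed {C : Set X} (hNP : NPF C) {R : ℝ} 
    (hRC : ∀ x ∈ C, ∀ y ∈ C, ‖x - y‖ ≤ R) {U : X → X} (hU : NE C U) {x0 : X}
    (hx0 : x0 ∈ C) (m : ℕ) (ε : ℝ) (hε : 0 < ε) :
    ∀ᶠ g in 𝓖, ‖U^[m] (Yw U x0 g) - Yw U x0 g‖ ≤ ε := by
  rw [Filter.eventually_curry_iff]
  have hlim : Tendsto (fun L : ℕ => (m : ℝ) * R / ((L : ℝ) + 1)) atTop (𝓝 0) := by
    have h1 : Tendsto (fun L : ℕ => ((L : ℝ) + 1)) atTop atTop :=
      tendsto_atTop_add_const_right _ _ tendsto_natCast_atTop_atTop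
    exact h1.const_div_atTop _
  filter_upwards [hlim.eventually (gt_mem_nhds (show (0 : ℝ) < ε / 2 by linarith))] with L hL
  filter_upwards [win_iterate hNP hU hx0 L (ε / 2) (by linarith)] with k hk
  have h1 := hk m
  have h2 := win_shift (fun i => U^[i] x0) R (orbit_bound hRC hU hx0) (L + 1) (by omega) k m
  push_cast at h2
  simp only [Yw]
  have e : U^[m] (win (fun i => U^[i] x0) (L + 1) k) - win (fun i => U^[i] x0) (L + 1) k
      = (U^[m] (win (fun i => U^[i] x0) (L + 1) k) - win (fun i => U^[i] x0) (L + 1) (k + m))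
        + (win (fun i => U^[i] x0) (L + 1) (k + m) - win (fun i => U^[i] x0) (L + 1) k) := by abel
  rw [e]
  refine (norm_add_le _ _).trans ?_
  linarith

/-- A weak limit of good windows lies in the closed convex hull of the windows of any fixed
length beyond any fixed time. -/
theorem mem_hull {C : Set X} {R : ℝ} (hRC : ∀ x ∈ C, ∀ y ∈ C, ‖x - y‖ ≤ R) {U : X → X}
    (hU : NE C U) {x0 : X} (hx0 : x0 ∈ C) (Q : Filter (ℕ × ℕ)) [Q.NeBot] (hQ : Q ≤ 𝓖) (q : X)
    (hq : ∀ φ : X →L[ℝ] ℝ, Tendsto (fun g => φ (Yw U x0 g)) Q (𝓝 (φ q))) (L k : ℕ) :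
    q ∈ closure (convexHull ℝ {z : X | ∃ m : ℕ, z = win (fun i => U^[i] x0) (L + 1) (k + m)}) := by
  by_contra hcon
  obtain ⟨φ, u, h1, h2⟩ := geometric_hahn_banach_closed_point
    ((convex_convexHull ℝ _).closure) isClosed_closure hcon
  set x : ℕ → X := fun i => U^[i] x0 with hx
  have hφ : ∀ m, φ (win x (L + 1) (k + m)) < u := fun m =>
    h1 _ (subset_closure (subset_convexHull ℝ _ ⟨m, rfl⟩))
  have hD := orbit_bound hRC hU hx0
  -- eventually `φ (Yw g) ≤ u + small`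
  have key : ∀ᶠ g in 𝓖, φ (Yw U x0 g) ≤ u + (φ q - u) / 2 := by
    rw [Filter.eventually_curry_iff]
    have hlim : Tendsto (fun N : ℕ => ‖φ‖ * ((((L + 1 : ℕ) : ℝ)) * R / ((N : ℝ) + 1))) atTop (𝓝 0) := by
      have h1 : Tendsto (fun L : ℕ => ((L : ℝ) + 1)) atTop atTop :=
        tendsto_atTop_add_const_right _ _ tendsto_natCast_atTop_atTop
      have h2 := (h1.const_div_atTop ((((L + 1 : ℕ) : ℝ)) * R)).const_mul ‖φ‖
      simpa using h2
    have hpos : 0 < (φ q - u) / 2 := by linarith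
    filter_upwards [hlim.eventually (gt_mem_nhds hpos)] with N hN
    filter_upwards [eventually_ge_atTop k] with k' hk'
    have h3 := win_avg_close x R hD (L + 1) (N + 1) (by omega) (by omega) k'
    have h4 : φ (((N + 1 : ℕ) : ℝ)⁻¹ • ∑ i ∈ Finset.range (N + 1), win x (L + 1) (k' + i)) ≤ u := by
      rw [map_smul, map_sum, smul_eq_mul]
      have hN' : (0 : ℝ) < ((N + 1 : ℕ) : ℝ) := by positivity
      rw [inv_mul_le_iff₀ hN']
      calc ∑ i ∈ Finset.range (N + 1), φ (win x (L + 1) (k' + i))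
          ≤ ∑ i ∈ Finset.range (N + 1), u := by
            refine Finset.sum_le_sum fun i _ => ?_
            obtain ⟨m, hm⟩ := Nat.exists_eq_add_of_le hk'
            have := hφ (m + i)
            rw [hm, add_assoc]
            exact this.le
        _ = ((N + 1 : ℕ) : ℝ) * u := by rw [Finset.sum_const, Finset.card_range, nsmul_eq_mul]
    have h5 : φ (win x (N + 1) k') ≤
        φ (((N + 1 : ℕ) : ℝ)⁻¹ • ∑ i ∈ Finset.range (N + 1), win x (L + 1) (k' + i))
        + ‖φ‖ * ‖((N + 1 : ℕ) : ℝ)⁻¹ • ∑ i ∈ Finset.range (N + 1), win x (L + 1) (k' + i)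
            - win x (N + 1) k'‖ := by
      have h6 := φ.le_opNorm (((N + 1 : ℕ) : ℝ)⁻¹ • ∑ i ∈ Finset.range (N + 1), win x (L + 1) (k' + i)
            - win x (N + 1) k')
      rw [map_sub, Real.norm_eq_abs] at h6
      have h7 := (abs_le.1 h6).1
      linarith
    have h8 : ‖φ‖ * ‖((N + 1 : ℕ) : ℝ)⁻¹ • ∑ i ∈ Finset.range (N + 1), win x (L + 1) (k' + i)
            - win x (N + 1) k'‖ ≤ ‖φ‖ * ((((L + 1 : ℕ) : ℝ)) * R / ((N : ℝ) + 1)) := by
      refine mul_le_mul_of_nonneg_left ?_ (norm_nonneg _)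
      refine h3.trans (le_of_eq ?_)
      push_cast
      ring
    simp only [Yw]
    linarith
  have h9 := hQ key
  have h10 : φ q ≤ u + (φ q - u) / 2 :=
    le_of_tendsto (hq φ) h9
  linarith

end Pool.Agent.Helper155.NME
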