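import Mathlib
import Pool.Agent.Helper155.NME.Orbit

set_option autoImplicit false

open Filter Topology Set

namespace Pool.Agent.Helper155.NME

variable {X : Type*} [NormedAddCommGroup X] [NormedSpace ℝ X]

omit [NormedSpace ℝ X] in
theorem sum_close {G : Type*} (f h : G → X) (e : ℝ) (l : List G) (H : ∀ g ∈ l, ‖f g - h g‖ ≤ e) :
    ‖(l.map f).sum - (l.map h).sum‖ ≤ l.length * e := by
  induction l with
  | nil => simp
  | cons g l ih =>
    simp only [List.map_cons, List.sum_cons, List.length_cons]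
    have h1 := H g (by simp)
    have h2 := ih (fun g' hg' => H g' (by simp [hg']))
    have e' : f g + (l.map f).sum - (h g + (l.map h).sum)
        = (f g - h g) + ((l.map f).sum - (l.map h).sum) := by abel
    rw [e']
    refine (norm_add_le _ _).trans ?_
    push_cast
    linarith

instance neBot_𝓖 : 𝓖.NeBot := by
  constructor
  intro h
  have h1 : ∀ᶠ g in 𝓖, False := by rw [h]; exact Filter.eventually_bot
  rw [Filter.eventually_curry_iff] at h1
  obtain ⟨a, ha⟩ := h1.exists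
  exact ha.exists.elim fun _ h => h

/-- Weak limits of good windows are fixed points. -/
theorem limit_fixed [UniformConvexSpace X] {C : Set X} (hC : Convex ℝ C) {R : ℝ}
    (hRC : ∀ x ∈ C, ∀ y ∈ C, ‖x - y‖ ≤ R) (hNP : NPF C) {U : X → X} (hU : NE C U) {x0 : X}
    (hx0 : x0 ∈ C) (P : Filter (ℕ × ℕ)) [P.NeBot] (hP : P ≤ 𝓖) (p : X) (hp : p ∈ C)
    (hw : ∀ φ : X →L[ℝ] ℝ, Tendsto (fun g => φ (Yw U x0 g)) P (𝓝 (φ p))) : U p = p := by
  have hY : ∀ g, Yw U x0 g ∈ C := Yw_mem hC hU hx0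
  have key : ∀ ε > (0 : ℝ), ‖U p - p‖ ≤ 4 * ε := by
    intro ε hε
    obtain ⟨n, hn, hk⟩ := kakutani X P (Yw U x0) p R (fun g => hRC _ (hY g) _ hp) hw ε hε
    obtain ⟨j, rfl⟩ := Nat.exists_eq_succ_of_ne_zero hn.ne'
    obtain ⟨η, hη, H⟩ := NPL_of_NPF hNP j ε hε
    set ε2 : ℝ := min (η / 2) ε with hε2
    have h2pos : 0 < ε2 := lt_min (by linarith) hε
    have h2a : ε2 ≤ η / 2 := min_le_left _ _
    have h2b : ε2 ≤ ε := min_le_right _ _
    have haf : ∀ᶠ g in P, ‖U (Yw U x0 g) - Yw U x0 g‖ ≤ ε2 :=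
      hP (almost_fixed hNP hRC hU hx0 1 ε2 h2pos)
    rw [Nat.succ_eq_add_one, eventually_FL_succ] at hk
    obtain ⟨g, hg1, hg2⟩ := (hk.and haf).exists
    have := FL_neBot (P := P) j
    obtain ⟨l, hl1, hl2, hl3⟩ := (hg1.and ((FL_length j).and (FL_all haf j))).exists
    set a : ℝ := (((j + 1 : ℕ) : ℝ))⁻¹ with ha
    have ha0 : 0 ≤ a := by positivity
    have haj : a + a * (j : ℝ) = 1 := by
      rw [ha]; push_cast; field_simp; ring
    have hdef : ∀ z ∈ Yw U x0 g :: l.map (Yw U x0), ∀ z' ∈ Yw U x0 g :: l.map (Yw U x0),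
        ‖z - z'‖ - ‖U z - U z'‖ ≤ η := by
      have hz : ∀ z ∈ Yw U x0 g :: l.map (Yw U x0), ‖U z - z‖ ≤ ε2 := by
        intro z hz
        rcases List.mem_cons.1 hz with h | h
        · rw [h]; exact hg2
        · obtain ⟨g', hg', rfl⟩ := List.mem_map.1 h
          exact hl3 g' hg'
      intro z hz1 z' hz2
      have h1 := hz z hz1
      have h2 := hz z' hz2
      have e : z - z' = (U z - U z') - (U z - z) + (U z' - z') := by abel
      have : ‖z - z'‖ ≤ ‖U z - U z'‖ + ‖U z - z‖ + ‖U z' - z'‖ := by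
        rw [e]
        refine (norm_add_le _ _).trans ?_
        have h3 : ‖(U z - U z') - (U z - z)‖ ≤ ‖U z - U z'‖ + ‖U z - z‖ := norm_sub_le _ _
        have e2 : U z - U z' - (U z - z) + (U z' - z') = z - z' := by abel
        have e3 : ‖U (z) - U z'‖ = ‖U z - U z'‖ := rfl
        linarith
      linarith
    have h1 := H U hU (Yw U x0 g) (l.map (Yw U x0)) a a (by simp [hl2]) (hY g)
      (by
        intro z hz
        obtain ⟨g', _, rfl⟩ := List.mem_map.1 hz
        exact hY g') ha0 ha0 haj hdef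
    simp only [List.map_cons, List.sum_cons, smul_add, List.map_map] at hl1 h1
    have h2 := sum_close (U ∘ Yw U x0) (Yw U x0) ε2 l (fun g' hg' => hl3 g' hg')
    rw [hl2] at h2
    set w : X := a • Yw U x0 g + a • (l.map (Yw U x0)).sum with hw'
    have hwC : w ∈ C := by
      have e1 : w = (1 - a * j) • Yw U x0 g + a • (l.map (Yw U x0)).sum := by
        rw [hw']; congr 2; linarith
      have hgen : ∀ (zs : List X) (q : X), q ∈ C → (∀ z ∈ zs, z ∈ C) → ∀ a : ℝ, 0 ≤ a →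
          a * zs.length ≤ 1 → (1 - a * zs.length) • q + a • zs.sum ∈ C := by
        intro zs q hq hzs a ha hab
        have e2 : (1 - a * zs.length) • q + a • zs.sum = ∑ i : Fin (zs.length + 1),
            (Fin.cons (1 - a * zs.length) (fun _ => a) : Fin (zs.length + 1) → ℝ) i •
              (Fin.cons q (fun i => zs.get i) : Fin (zs.length + 1) → X) i := by
          rw [Fin.sum_univ_succ]
          simp only [Fin.cons_zero, Fin.cons_succ]
          rw [← Finset.smul_sum]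
          congr 2
          simp
        rw [e2]
        apply hC.sum_mem
        · intro i _
          refine Fin.cases ?_ (fun i => ?_) i
          · simp only [Fin.cons_zero]; linarith
          · simpa using ha
        · rw [Fin.sum_univ_succ]
          simp only [Fin.cons_zero, Fin.cons_succ, Finset.sum_const, Finset.card_univ,
            Fintype.card_fin, nsmul_eq_mul]
          ring
        · intro i _
          refine Fin.cases ?_ (fun i => ?_) i
          · simpa using hq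
          · simpa using hzs _ (List.get_mem zs i)
      have := hgen (l.map (Yw U x0)) (Yw U x0 g) (hY g)
        (by
          intro z hz
          obtain ⟨g', _, rfl⟩ := List.mem_map.1 hz
          exact hY g') a ha0 (by simp only [List.length_map, hl2]; linarith)
      simp only [List.length_map, hl2] at this
      rw [e1]; exact this
    have h3 : ‖U p - U w‖ ≤ ‖p - w‖ := hU.le p hp w hwC
    have h4 : ‖w - p‖ ≤ ε := hl1
    rw [norm_sub_rev p w] at h3
    have h5 : ‖a • (U (Yw U x0 g) - Yw U x0 g)‖ ≤ a * ε2 := by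
      rw [norm_smul_of_nonneg ha0]; gcongr
    have h6 : ‖a • ((l.map (U ∘ Yw U x0)).sum - (l.map (Yw U x0)).sum)‖ ≤ a * (j * ε2) := by
      rw [norm_smul_of_nonneg ha0]; gcongr
    have e : U p - p = (U p - U w) + (U w - (a • U (Yw U x0 g) + a • (l.map (U ∘ Yw U x0)).sum))
        + a • (U (Yw U x0 g) - Yw U x0 g) + a • ((l.map (U ∘ Yw U x0)).sum - (l.map (Yw U x0)).sum)
        + (w - p) := by
      rw [hw']; module
    rw [e]
    have h7 : a * ε2 + a * (j * ε2) = ε2 := by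
      have : a * ε2 + a * (j * ε2) = (a + a * j) * ε2 := by ring
      rw [this, haj, one_mul]
    have h8 := norm_add₃_le (a := (U p - U w))
      (b := (U w - (a • U (Yw U x0 g) + a • (l.map (U ∘ Yw U x0)).sum)))
      (c := a • (U (Yw U x0 g) - Yw U x0 g))
    have h9 := norm_add_le ((U p - U w) + (U w - (a • U (Yw U x0 g) + a • (l.map (U ∘ Yw U x0)).sum))
        + a • (U (Yw U x0 g) - Yw U x0 g))
        (a • ((l.map (U ∘ Yw U x0)).sum - (l.map (Yw U x0)).sum))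
    have h10 := norm_add_le ((U p - U w) + (U w - (a • U (Yw U x0 g) + a • (l.map (U ∘ Yw U x0)).sum))
        + a • (U (Yw U x0 g) - Yw U x0 g) +
        (a • ((l.map (U ∘ Yw U x0)).sum - (l.map (Yw U x0)).sum))) (w - p)
    linarith
  have h0 : ‖U p - p‖ ≤ 0 := by
    apply le_of_forall_pos_le_add
    intro ε hε
    have := key (ε / 4) (by linarith)
    linarith
  exact sub_eq_zero.1 (norm_le_zero_iff.1 h0)

/-- All weak ultrafilter limits of good windows coincide. -/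
theorem limits_eq [UniformConvexSpace X] {C : Set X} (hC : Convex ℝ C) {R : ℝ}
    (hRC : ∀ x ∈ C, ∀ y ∈ C, ‖x - y‖ ≤ R) (hNP : NPF C) {U : X → X} (hU : NE C U) {x0 : X}
    (hx0 : x0 ∈ C) (P Q : Ultrafilter (ℕ × ℕ)) (hP : (P : Filter (ℕ × ℕ)) ≤ 𝓖)
    (hQ : (Q : Filter (ℕ × ℕ)) ≤ 𝓖) (p q : X) (hp : p ∈ C) (hq : q ∈ C)
    (hwp : ∀ φ : X →L[ℝ] ℝ, Tendsto (fun g => φ (Yw U x0 g)) (P : Filter (ℕ × ℕ)) (𝓝 (φ p)))
    (hwq : ∀ φ : X →L[ℝ] ℝ, Tendsto (fun g => φ (Yw U x0 g)) (Q : Filter (ℕ × ℕ)) (𝓝 (φ q))) :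
    q = p := by
  have hY : ∀ g, Yw U x0 g ∈ C := Yw_mem hC hU hx0
  have hUp : U p = p := limit_fixed hC hRC hNP hU hx0 P hP p hp hwp
  have hUq : U q = q := limit_fixed hC hRC hNP hU hx0 Q hQ q hq hwq
  -- the type function
  have hex : ∀ z : X, ∃ r : ℝ, z ∈ C →
      Tendsto (fun g => ‖z - Yw U x0 g‖) (P : Filter (ℕ × ℕ)) (𝓝 r) := by
    intro z
    by_cases hz : z ∈ C
    · have hcomp : IsCompact (Icc (0 : ℝ) R) := isCompact_Icc
      have hmem : Icc (0 : ℝ) R ∈ P.map (fun g => ‖z - Yw U x0 g‖) := by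
        rw [Ultrafilter.mem_map]
        exact Filter.univ_mem' (fun g => ⟨norm_nonneg _, hRC z hz _ (hY g)⟩)
      obtain ⟨r, _, hr⟩ := hcomp.ultrafilter_le_nhds (P.map (fun g => ‖z - Yw U x0 g‖))
        (le_principal_iff.2 hmem)
      exact ⟨r, fun _ => hr⟩
    · exact ⟨0, fun h => absurd h hz⟩
  choose r hr using hex
  have hr0 : ∀ z ∈ C, 0 ≤ r z := fun z hz =>
    ge_of_tendsto' (hr z hz) (fun g => norm_nonneg _)
  have hr1 : ∀ z ∈ C, ∀ z' ∈ C, r z ≤ r z' + ‖z - z'‖ := by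
    intro z hz z' hz'
    refine le_of_tendsto_of_tendsto' (hr z hz) ((hr z' hz').add_const _) (fun g => ?_)
    have e : z - Yw U x0 g = (z' - Yw U x0 g) + (z - z') := by abel
    rw [e]; exact norm_add_le _ _
  have hr2 : ∀ z ∈ C, ∀ m : ℕ, r (U^[m] z) ≤ r z := by
    intro z hz m
    apply le_of_forall_pos_le_add
    intro ε hε
    have h1 : ∀ᶠ g in (P : Filter (ℕ × ℕ)), ‖U^[m] (Yw U x0 g) - Yw U x0 g‖ ≤ ε :=
      hP (almost_fixed hNP hRC hU hx0 m ε hε)
    refine le_of_tendsto_of_tendsto (hr _ ((hU.iterate m).maps z hz)) ((hr z hz).add_const ε) ?_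
    filter_upwards [h1] with g hg
    have e : U^[m] z - Yw U x0 g = (U^[m] z - U^[m] (Yw U x0 g)) + (U^[m] (Yw U x0 g) - Yw U x0 g) := by
      abel
    rw [e]
    refine (norm_add_le _ _).trans ?_
    have := (hU.iterate m).le z hz _ (hY g)
    linarith
  have hs2 : ∀ z ∈ C, ∀ m : ℕ, ‖U^[m] z - q‖ ≤ ‖z - q‖ := by
    intro z hz m
    have h1 := (hU.iterate m).le z hz q hq
    rwa [Function.iterate_fixed hUq m] at h1
  have H : ∀ ε > (0 : ℝ), ∀ᶠ g in (P : Filter (ℕ × ℕ)), q ∈ closure (convexHull ℝ {z : X | ∃ m : ℕ,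
        ‖U^[m] (Yw U x0 g) - z‖ ≤ ε ∧ ‖Yw U x0 g - q‖ - ‖U^[m] (Yw U x0 g) - q‖ ≤ ε ∧
        ∀ᶠ g' in (P : Filter (ℕ × ℕ)), ‖U^[m] (Yw U x0 g') - Yw U x0 g'‖ ≤ ε ∧
          ‖Yw U x0 g - Yw U x0 g'‖ - ‖U^[m] (Yw U x0 g) - Yw U x0 g'‖ ≤ ε}) := by
    intro ε hε
    apply hP
    show ∀ᶠ g in 𝓖, _
    rw [Filter.eventually_curry_iff]
    refine Filter.Eventually.of_forall fun L => ?_
    filter_upwards [win_iterate hNP hU hx0 L ε hε,
      rho_lemma hC hNP hU hx0 r hr0 hr1 hr2 L (ε / 3) (by linarith),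
      rho_lemma hC hNP hU hx0 (fun z => ‖z - q‖) (fun z _ => norm_nonneg _)
        (fun z _ z' _ => by
          have e : z - q = (z' - q) + (z - z') := by abel
          show ‖z - q‖ ≤ ‖z' - q‖ + ‖z - z'‖
          rw [e]; exact norm_add_le _ _) hs2 L ε hε] with k h1 h2 h3
    refine closure_mono (convexHull_mono ?_) (mem_hull hRC hU hx0 Q hQ q hwq L k)
    rintro z ⟨m, rfl⟩
    refine ⟨m, h1 m, h3 m, ?_⟩
    have h4 : ∀ᶠ g' in (P : Filter (ℕ × ℕ)), ‖U^[m] (Yw U x0 g') - Yw U x0 g'‖ ≤ ε :=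
      hP (almost_fixed hNP hRC hU hx0 m ε hε)
    have hYC : Yw U x0 (L, k) ∈ C := hY (L, k)
    have h5 := (hr _ hYC).eventually (gt_mem_nhds (show r (Yw U x0 (L, k)) <
      r (Yw U x0 (L, k)) + ε / 3 by linarith))
    have h6 := (hr _ ((hU.iterate m).maps _ hYC)).eventually (lt_mem_nhds (show
      r (U^[m] (Yw U x0 (L, k))) - ε / 3 < r (U^[m] (Yw U x0 (L, k))) by linarith))
    filter_upwards [h4, h5, h6] with g' h7 h8 h9
    refine ⟨h7, ?_⟩
    have h10 : r (Yw U x0 (L, k)) - r (U^[m] (Yw U x0 (L, k))) ≤ ε / 3 := h2 m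
    linarith
  have key : ∀ ε > (0 : ℝ), ‖q - p‖ ≤ ε := by
    intro ε hε
    obtain ⟨n, hn, hk⟩ := kakutani X (P : Filter (ℕ × ℕ)) (Yw U x0) p R
      (fun g => hRC _ (hY g) _ hp) hwp (ε / 2) (by linarith)
    have hn' : (0 : ℝ) < n := by exact_mod_cast hn
    have h1 := main_step hC hU (NPL_of_NPF hNP) (P : Filter (ℕ × ℕ)) (Yw U x0) hY p q hp hq hUp
      hUq H n hn n le_rfl (ε / 2) (by
        filter_upwards [hk] with l hl
        have e : (1 - (n : ℝ)⁻¹ * n) • q = 0 := by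
          rw [inv_mul_cancel₀ hn'.ne', sub_self, zero_smul]
        rw [e, zero_add]
        exact hl) (ε / 2) (by linarith)
    linarith
  have h0 : ‖q - p‖ ≤ 0 := by
    apply le_of_forall_pos_le_add
    intro ε hε
    have := key ε hε
    linarith
  exact sub_eq_zero.1 (norm_le_zero_iff.1 h0)

/-- **Nonlinear mean ergodic theorem** in uniformly convex Banach spaces. -/
theorem nonlinear_mean_ergodic [CompleteSpace X] [UniformConvexSpace X] {C : Set X}
    (hC : Convex ℝ C) (hCc : IsClosed C) {R : ℝ} (hRC : ∀ x ∈ C, ∀ y ∈ C, ‖x - y‖ ≤ R)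
    {U : X → X} (hU : NE C U) {x0 : X} (hx0 : x0 ∈ C) :
    ∃ p ∈ C, U p = p ∧ ∀ φ : X →L[ℝ] ℝ,
      Tendsto (fun n : ℕ => φ ((((n : ℝ) + 1)⁻¹) • ∑ j ∈ Finset.range (n + 1), U^[j] x0))
        atTop (𝓝 (φ p)) := by
  have hR0 : 0 < R + 1 := by
    have := (norm_nonneg _).trans (hRC x0 hx0 x0 hx0)
    linarith
  have hNP : NPF C := npf hC hR0 (fun x hx y hy => (hRC x hx y hy).trans (by linarith))
  have hY : ∀ g, Yw U x0 g ∈ C := Yw_mem hC hU hx0
  have hM : ∀ g, ‖Yw U x0 g‖ ≤ R + ‖x0‖ := by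
    intro g
    have h1 := hRC _ (hY g) x0 hx0
    have e : Yw U x0 g = (Yw U x0 g - x0) + x0 := by abel
    rw [e]
    exact (norm_add_le _ _).trans (by linarith)
  have hlim : ∀ P : Ultrafilter (ℕ × ℕ), ∃ p ∈ C, ∀ φ : X →L[ℝ] ℝ,
      Tendsto (fun g => φ (Yw U x0 g)) (P : Filter (ℕ × ℕ)) (𝓝 (φ p)) := fun P =>
    weak_ultralimit X P C hC hCc (Yw U x0) hY _ hM
  obtain ⟨p, hp, hwp⟩ := hlim (Ultrafilter.of 𝓖)
  have hP0 : ((Ultrafilter.of 𝓖 : Ultrafilter (ℕ × ℕ)) : Filter (ℕ × ℕ)) ≤ 𝓖 := Ultrafilter.of_le 𝓖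
  have hUp : U p = p := limit_fixed hC hRC hNP hU hx0 _ hP0 p hp hwp
  refine ⟨p, hp, hUp, fun φ => ?_⟩
  have hall : Tendsto (fun g => φ (Yw U x0 g)) 𝓖 (𝓝 (φ p)) := by
    rw [Filter.tendsto_iff_ultrafilter]
    intro Q hQ
    obtain ⟨q, hq, hwq⟩ := hlim Q
    have := limits_eq hC hRC hNP hU hx0 _ Q hP0 hQ p q hp hq hwp hwq
    rw [← this]
    exact hwq φ
  have hD := orbit_bound hRC hU hx0
  have hS : ∀ n : ℕ, (((n : ℝ) + 1)⁻¹) • ∑ j ∈ Finset.range (n + 1), U^[j] x0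
      = win (fun i => U^[i] x0) (n + 1) 0 := by
    intro n
    rw [win]
    push_cast
    simp
  simp only [hS]
  set x : ℕ → X := fun i => U^[i] x0 with hx
  rw [Metric.tendsto_atTop]
  intro ε hε
  have h1 : ∀ᶠ g in 𝓖, |φ (Yw U x0 g) - φ p| < ε / 2 := by
    have := (Metric.tendsto_nhds.1 hall) (ε / 2) (by linarith)
    simpa [Real.dist_eq] using this
  rw [Filter.eventually_curry_iff] at h1
  obtain ⟨L, hL⟩ := h1.exists
  obtain ⟨K, hK⟩ := Filter.eventually_atTop.1 hL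
  have hlim0 : Tendsto (fun N : ℕ => ‖φ‖ * (((K : ℝ) * R + ((L + 1 : ℕ) : ℝ) * R) / ((N : ℝ) + 1)))
      atTop (𝓝 0) := by
    have h1 : Tendsto (fun L : ℕ => ((L : ℝ) + 1)) atTop atTop :=
      tendsto_atTop_add_const_right _ _ tendsto_natCast_atTop_atTop
    have h2 := (h1.const_div_atTop ((K : ℝ) * R + ((L + 1 : ℕ) : ℝ) * R)).const_mul ‖φ‖
    simpa using h2
  obtain ⟨N0, hN0⟩ := Filter.eventually_atTop.1
    (hlim0.eventually (gt_mem_nhds (show (0 : ℝ) < ε / 2 by linarith)))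
  refine ⟨N0, fun n hn => ?_⟩
  have h2 := hN0 n hn
  have h3 := win_shift x R hD (n + 1) (by omega) 0 K
  have h4 := win_avg_close x R hD (L + 1) (n + 1) (by omega) (by omega) K
  rw [zero_add] at h3
  set A : X := ((n + 1 : ℕ) : ℝ)⁻¹ • ∑ i ∈ Finset.range (n + 1), win x (L + 1) (K + i) with hA
  have h5 : |φ A - φ p| ≤ ε / 2 := by
    have e : φ A - φ p = ((n + 1 : ℕ) : ℝ)⁻¹ * ∑ i ∈ Finset.range (n + 1),
        (φ (win x (L + 1) (K + i)) - φ p) := by
      rw [hA, map_smul, map_sum, smul_eq_mul, Finset.sum_sub_distrib, Finset.sum_const,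
        Finset.card_range, nsmul_eq_mul]
      have : ((n + 1 : ℕ) : ℝ) ≠ 0 := by positivity
      field_simp
    rw [e, abs_mul, abs_of_nonneg (by positivity)]
    have hN' : (0 : ℝ) < ((n + 1 : ℕ) : ℝ) := by positivity
    rw [inv_mul_le_iff₀ hN']
    refine (Finset.abs_sum_le_sum_abs _ _).trans ?_
    calc ∑ i ∈ Finset.range (n + 1), |φ (win x (L + 1) (K + i)) - φ p|
        ≤ ∑ i ∈ Finset.range (n + 1), ε / 2 :=
          Finset.sum_le_sum fun i _ => (hK (K + i) (by omega)).le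
      _ = ((n + 1 : ℕ) : ℝ) * (ε / 2) := by rw [Finset.sum_const, Finset.card_range, nsmul_eq_mul]
  have h6 : |φ (win x (n + 1) 0) - φ A| ≤
      ‖φ‖ * (((K : ℝ) * R + ((L + 1 : ℕ) : ℝ) * R) / ((n : ℝ) + 1)) := by
    have h7 := φ.le_opNorm (win x (n + 1) 0 - A)
    rw [map_sub, Real.norm_eq_abs] at h7
    refine h7.trans (mul_le_mul_of_nonneg_left ?_ (norm_nonneg _))
    have e : win x (n + 1) 0 - A = -(win x (n + 1) K - win x (n + 1) 0) - (A - win x (n + 1) K) := by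
      abel
    rw [e]
    refine (norm_sub_le _ _).trans ?_
    rw [norm_neg, add_div]
    refine add_le_add ?_ ?_
    · refine h3.trans (le_of_eq ?_)
      push_cast; ring
    · refine h4.trans (le_of_eq ?_)
      push_cast; ring
  rw [Real.dist_eq]
  have e : φ (win x (n + 1) 0) - φ p = (φ (win x (n + 1) 0) - φ A) + (φ A - φ p) := by ring
  rw [e]
  have := abs_add_le (φ (win x (n + 1) 0) - φ A) (φ A - φ p)
  linarith

end Pool.Agent.Helper155.NME
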